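import Pool.Agent.H966.N9.Stm

/-!
TASK A of the local limit theorem for the exits (project N9 of helper966): ratios of coefficients of
dv. Written by helper190, adapted from H966/N5/A (helper340).
-/

set_option autoImplicit false
set_option maxHeartbeats 4000000

namespace Pool.Agent.H966.N9

open Polynomial
open Pool.Agent.NH38.Fork (rf cK sv kap pv S_sE S_KE)
open Pool.Agent.H965.K3 (dv)
open Pool.Agent.H966.N3 (S_dE)

namespace A

lemma kp (n : ℕ) : 0 < kap n := by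
  unfold kap
  exact Finset.prod_pos fun i _ => by positivity

lemma kap_diff (n : ℕ) : kap (n+2) - kap n =
    kap n * ((4/3*(n:ℚ)+2)/(((n:ℚ)+2/3)*((n:ℚ)+5/3))) := by
  unfold kap
  rw [Finset.prod_range_succ, Finset.prod_range_succ]
  have h1 : (n:ℚ)+2/3 ≠ 0 := by positivity
  have h2 : (n:ℚ)+5/3 ≠ 0 := by positivity
  have h3 : ((n+1:ℕ):ℚ)+2/3 = (n:ℚ)+5/3 := by push_cast; ring
  have h4 : ((n+1:ℕ):ℚ)+4/3 = (n:ℚ)+7/3 := by push_cast; ring
  rw [h3, h4]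
  generalize (∏ i ∈ Finset.range n, ((i:ℚ) + 4/3) / (i + 2/3)) = P
  field_simp
  ring

lemma rfp {s : ℝ} (hs : 0 < s) (n : ℕ) : 0 < rf s n := by
  unfold rf
  exact Finset.prod_pos fun i _ => by positivity

lemma rf_shift (l : ℕ) : rf (4/3) l = (3*(l:ℝ)+1) * rf (1/3) l := by
  induction l with
  | zero => simp [rf]
  | succ l ih =>
    have e1 : rf (4/3) (l+1) = rf (4/3) l * (4/3 + l) := by
      unfold rf; rw [Finset.prod_range_succ]
    have e2 : rf (1/3) (l+1) = rf (1/3) l * (1/3 + l) := by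
      unfold rf; rw [Finset.prod_range_succ]
    rw [e1, e2, ih]
    push_cast
    ring

lemma rf_12 (l : ℕ) : rf (1/3) l ≤ rf (2/3) l := by
  unfold rf
  refine Finset.prod_le_prod (fun i _ => by positivity) (fun i _ => by linarith)

lemma rf_42 (j : ℕ) : rf (4/3) j ≤ ((j:ℝ)+1) * rf (2/3) j := by
  induction j with
  | zero => unfold rf; simp
  | succ j ih =>
    have e1 : rf (4/3) (j+1) = rf (4/3) j * (4/3 + j) := by
      unfold rf; rw [Finset.prod_range_succ]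
    have e2 : rf (2/3) (j+1) = rf (2/3) j * (2/3 + j) := by
      unfold rf; rw [Finset.prod_range_succ]
    rw [e1, e2]
    have h0 := rfp (s := 2/3) (by norm_num) j
    have hj : (0:ℝ) ≤ j := Nat.cast_nonneg j
    push_cast
    calc rf (4/3) j * (4/3 + j) ≤ (((j:ℝ)+1) * rf (2/3) j) * (4/3 + j) :=
          mul_le_mul_of_nonneg_right ih (by positivity)
      _ ≤ _ := by
        have : ((j:ℝ)+1) * (4/3 + j) ≤ (j+1+1) * (2/3 + j) := by nlinarith
        nlinarith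

lemma dv_eq (n l : ℕ) : (kap (n+2) - kap n) * (dv (n+1)).coeff l =
    (sv (n+2)).coeff l - (sv n).coeff l := by
  have h : kap (n+2) - kap n ≠ 0 := by
    rw [kap_diff]
    have := kp n
    positivity
  show _ * (C (1/(kap (n+2) - kap n)) * (sv (n+2) - sv n)).coeff l = _
  rw [coeff_C_mul, coeff_sub]
  field_simp

lemma cKp : 0 < cK := div_pos (Real.Gamma_pos_of_pos (by norm_num))
  (Real.Gamma_pos_of_pos (by norm_num))

/-- the quotient of four factors near 1 -/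
lemma quot {E a b d s : ℝ} (hE0 : 0 ≤ E) (hE : E ≤ 1/4) (ha : |a| ≤ E) (hb : |b| ≤ E)
    (hd : |d| ≤ E) (hs : |s| ≤ E) :
    |(1+a)*(1+b)*(1+d)/(1+s) - 1| ≤ 12 * E := by
  have ha' := abs_le.1 ha
  have hb' := abs_le.1 hb
  have hd' := abs_le.1 hd
  have hs' := abs_le.1 hs
  have hs0 : 0 < 1 + s := by linarith
  have e : (1+a)*(1+b)*(1+d)/(1+s) - 1 = ((1+a)*(1+b)*(1+d) - (1 + s)) / (1+s) := by
    field_simp
  rw [e, abs_div, abs_of_pos hs0, div_le_iff₀ hs0]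
  have h1 : (1+a)*(1+b)*(1+d) - (1 + s) = a + b + d - s + a*b + a*d + b*d + a*b*d := by ring
  have hab : |a*b| ≤ E * E := by rw [abs_mul]; exact mul_le_mul ha hb (abs_nonneg _) hE0
  have had : |a*d| ≤ E * E := by rw [abs_mul]; exact mul_le_mul ha hd (abs_nonneg _) hE0
  have hbd : |b*d| ≤ E * E := by rw [abs_mul]; exact mul_le_mul hb hd (abs_nonneg _) hE0
  have habd : |a*b*d| ≤ E * E * E := by
    rw [abs_mul]; exact mul_le_mul hab hd (abs_nonneg _) (by positivity)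
  have hEE : E * E ≤ E * (1/4) := mul_le_mul_of_nonneg_left hE hE0
  have hEEE : E * E * E ≤ E * (1/4) := by nlinarith
  have h2 : |(1+a)*(1+b)*(1+d) - (1 + s)| ≤ 5 * E := by
    rw [h1, abs_le]
    have := abs_le.1 hab
    have := abs_le.1 had
    have := abs_le.1 hbd
    have := abs_le.1 habd
    constructor <;> linarith
  nlinarith

lemma fac_b {n : ℝ} {l : ℕ} (hn : 1 ≤ n) (hl : 2*(l:ℝ) ≤ n) :
    |((n+1)/n)^(2*l) - 1| ≤ 4 * (l:ℝ) / n := by
  have h0 : 0 < n := by linarith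
  have h1 : (n+1)/n = 1/n + 1 := by rw [add_div, div_self h0.ne', add_comm]
  have h2 : (1:ℝ)/n + 1 ≤ Real.exp (1/n) := Real.add_one_le_exp _
  have h3 : ((n+1)/n)^(2*l) ≤ Real.exp (2*(l:ℝ)/n) := by
    rw [h1]
    calc (1/n + 1)^(2*l) ≤ (Real.exp (1/n))^(2*l) := pow_le_pow_left₀ (by positivity) h2 _
      _ = _ := by
        rw [← Real.exp_nat_mul]
        congr 1
        push_cast
        ring
  have h4 : 1 ≤ ((n+1)/n)^(2*l) := one_le_pow₀ (by rw [h1]; linarith [one_div_pos.2 h0])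
  have h5 : |Real.exp (2*(l:ℝ)/n) - 1| ≤ 2 * |2*(l:ℝ)/n| := by
    apply Real.abs_exp_sub_one_le
    rw [abs_of_nonneg (by positivity), div_le_one h0]
    exact hl
  rw [abs_of_nonneg (by linarith)]
  rw [abs_of_nonneg (by positivity : 0 ≤ 2*(l:ℝ)/n)] at h5
  have h6 := le_abs_self (Real.exp (2*(l:ℝ)/n) - 1)
  calc _ ≤ 2 * (2*(l:ℝ)/n) := by linarith
    _ = _ := by ring

lemma kap_succ (n : ℕ) : kap (n+1) = kap n * (((n:ℚ) + 4/3) / ((n:ℚ) + 2/3)) := by
  unfold kap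
  rw [Finset.prod_range_succ]

lemma rec_even (n l : ℕ) (hn : Even n) : (3*(n:ℚ)+5) * (sv (n+2)).coeff l =
    (6*(n:ℚ)+9) * ((sv (n+1)).coeff l + (X * sv (n+1)).coeff l) - (3*(n:ℚ)+4) * (sv n).coeff l := by
  have h : (3*(n:ℚ)+5) ≠ 0 := by positivity
  have e : sv (n+2) = C (1 / (3*(n:ℚ)+5)) * (C (6*(n:ℚ)+9) * (1 + X) * sv (n+1) -
      C (3*(n:ℚ)+4) * sv n) := by
    show pv 2 3 (n+2) = _
    rw [pv, if_pos hn]
    rfl
  have e2 : ((1 + X) * sv (n+1)).coeff l = (sv (n+1)).coeff l + (X * sv (n+1)).coeff l := by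
    rw [add_mul, one_mul, coeff_add]
  rw [e, coeff_C_mul, coeff_sub, coeff_C_mul, mul_assoc, coeff_C_mul, e2]
  field_simp

lemma rec_odd (n l : ℕ) (hn : ¬ Even n) : (3*(n:ℚ)+5) * (sv (n+2)).coeff l =
    (6*(n:ℚ)+9) * (sv (n+1)).coeff l - (3*(n:ℚ)+4) * (sv n).coeff l := by
  have h : (3*(n:ℚ)+5) ≠ 0 := by positivity
  have e : sv (n+2) = C (1 / (3*(n:ℚ)+5)) * (C (6*(n:ℚ)+9) * 1 * sv (n+1) -
      C (3*(n:ℚ)+4) * sv n) := by
    show pv 2 3 (n+2) = _
    rw [pv, if_neg hn]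
    rfl
  rw [e, coeff_C_mul, coeff_sub, coeff_C_mul, mul_one, coeff_C_mul]
  field_simp

/-- the exact identity -/
lemma ident (m l : ℕ) (hm : Even m) : 2 * kap (m+3) * ((dv (m+4)).coeff l - (dv (m+2)).coeff l) =
    (6*(m:ℚ)+21) * (X * sv (m+3)).coeff l := by
  have hm1 : ¬ Even (m+1) := by rw [Nat.not_even_iff_odd]; exact hm.add_one
  have hm2 : Even (m+2) := by rcases hm with ⟨k, rfl⟩; exact ⟨k+1, by ring⟩
  have hm3 : ¬ Even (m+3) := by rw [Nat.not_even_iff_odd]; exact hm2.add_one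
  have D1 := dv_eq (m+1) l
  have D2 := dv_eq (m+3) l
  have R1 := rec_odd (m+1) l hm1
  have R2 := rec_even (m+2) l hm2
  have R3 := rec_odd (m+3) l hm3
  rw [kap_diff] at D1 D2
  have K2 := kap_succ (m+1)
  have K3 := kap_succ (m+2)
  have hK := kp (m+1)
  push_cast at D1 D2 R1 R2 R3 K2 K3
  simp only [Nat.add_assoc, Nat.reduceAdd] at D1 D2 R1 R2 R3 K2 K3
  generalize (sv (m+1)).coeff l = s1 at *
  generalize (sv (m+2)).coeff l = s2 at *
  generalize (sv (m+4)).coeff l = s4 at *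
  generalize (sv (m+5)).coeff l = s5 at *
  generalize (X * sv (m+3)).coeff l = x3 at *
  generalize (sv (m+3)).coeff l = s3 at *
  generalize (dv (m+2)).coeff l = d1 at *
  generalize (dv (m+4)).coeff l = d2 at *
  rw [K2] at K3
  rw [K3] at D2 ⊢
  generalize kap (m+1) = K at *
  have hq : (0:ℚ) ≤ m := Nat.cast_nonneg m
  generalize (m:ℚ) = q at *
  have p1 : (0:ℚ) < 3*q+5 := by positivity
  have p2 : (0:ℚ) < 3*q+7 := by positivity
  have p3 : (0:ℚ) < 3*q+8 := by positivity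
  have p4 : (0:ℚ) < 3*q+10 := by positivity
  have p5 : (0:ℚ) < 3*q+11 := by positivity
  have p6 : (0:ℚ) < 3*q+13 := by positivity
  have p7 : (0:ℚ) < 3*q+14 := by positivity
  have e1 : s1 = ((6*q+15) * s2 - (3*q+8) * s3) / (3*q+7) := by
    rw [eq_div_iff p2.ne']; linarith
  have e4 : s4 = ((6*q+21) * (s3 + x3) - (3*q+10) * s2) / (3*q+11) := by
    rw [eq_div_iff p5.ne']; linarith
  have e5 : s5 = ((6*q+27) * s4 - (3*q+13) * s3) / (3*q+14) := by
    rw [eq_div_iff p7.ne']; linarith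
  have f1 : d1 = (s3 - s1) / (K * ((12*q+30) / ((3*q+5) * (3*q+8)))) := by
    rw [eq_div_iff (by positivity), ← D1]
    field_simp
    ring
  have f2 : d2 = (s5 - s3) / (K * ((3*q+7) / (3*q+5)) * ((3*q+10) / (3*q+8)) *
      ((12*q+54) / ((3*q+11) * (3*q+14)))) := by
    rw [eq_div_iff (by positivity), ← D2]
    field_simp
    ring
  rw [f1, f2, e5, e4, e1]
  field_simp
  ring

lemma rf_13 (l : ℕ) : rf (1/3) (l+1) = 1/3 * rf (4/3) l := by
  unfold rf
  rw [Finset.prod_range_succ']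
  have : ∀ k ∈ Finset.range l, (1/3 + ((k+1 : ℕ) : ℝ)) = 4/3 + (k:ℝ) := by
    intro k _
    push_cast
    ring
  rw [Finset.prod_congr rfl this]
  push_cast
  ring

end A

open A in
theorem t_A : S_A := by
  rintro ⟨Cs, hs⟩ ⟨kd, Cd, hd⟩ ⟨CK, hK⟩
  have hcK := cKp
  obtain ⟨k1, hk1⟩ : ∃ k1 : ℕ, k1 = kd + 3 := ⟨_, rfl⟩
  obtain ⟨C1, hC1⟩ : ∃ C1 : ℝ, C1 = 4 + |Cs| + |Cd| + 3 / cK := ⟨_, rfl⟩
  have hC10 : 0 < C1 := by rw [hC1]; positivity
  obtain ⟨n1, hn1⟩ := exists_nat_ge ((4*C1)^3)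
  obtain ⟨n2, hn2⟩ := exists_nat_ge (2 * |CK| / cK)
  refine ⟨3*k1, 24 * C1, n1 + n2 + 2, fun n l hn hn0 hl => ?_⟩
  -- basic inequalities
  have hnn : (2:ℕ) ≤ n := by omega
  have hn2' : (2:ℝ) ≤ n := by exact_mod_cast hnn
  have hn1' : (1:ℝ) ≤ n := by linarith
  have hnpos : (0:ℝ) < n := by linarith
  have hC1n : (4*C1)^3 ≤ (n:ℝ) := hn1.trans (by exact_mod_cast (by omega : n1 ≤ n))
  have hCKn : 2 * |CK| / cK ≤ (n:ℝ) := hn2.trans (by exact_mod_cast (by omega : n2 ≤ n))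
  obtain ⟨t, ht⟩ : ∃ t : ℝ, t = (n:ℝ)^((1:ℝ)/3) := ⟨_, rfl⟩
  have ht0 : 0 < t := by rw [ht]; positivity
  have ht3 : t^3 = n := by
    rw [ht, ← Real.rpow_natCast, ← Real.rpow_mul hnpos.le]
    norm_num
  have ht2 : (n:ℝ)^((2:ℝ)/3) = t^2 := by
    rw [ht, ← Real.rpow_natCast, ← Real.rpow_mul hnpos.le]
    norm_num
  have htm : (n:ℝ)^(-(2:ℝ)/3) = 1/t^2 := by
    rw [neg_div, Real.rpow_neg hnpos.le, ht2, one_div]
  have ht1 : 1 ≤ t := by
    by_contra h
    push Not at h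
    have : t^3 < 1 := pow_lt_one₀ ht0.le h (by norm_num)
    linarith
  have hl0 : (0:ℝ) ≤ l := Nat.cast_nonneg l
  have hl1 : (1:ℝ) ≤ (l:ℝ)+1 := by linarith
  obtain ⟨u, hu⟩ : ∃ u : ℝ, u = ((l:ℝ)+1)^k1 := ⟨_, rfl⟩
  have hu1 : 1 ≤ u := by rw [hu]; exact one_le_pow₀ hl1
  have hlu : (l:ℝ)+1 ≤ u := by
    rw [hu]
    calc (l:ℝ)+1 = ((l:ℝ)+1)^1 := (pow_one _).symm
      _ ≤ _ := pow_le_pow_right₀ hl1 (by omega)
  have hut : u ≤ t := by
    have h1 : ((l:ℝ)+1)^(3*k1) ≤ n := by exact_mod_cast hl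
    have h2 : u^3 ≤ t^3 := by
      rw [ht3, hu, ← pow_mul, mul_comm k1 3]
      exact h1
    exact le_of_pow_le_pow_left₀ (by norm_num) ht0.le h2
  have hl2 : (l+1)^2 ≤ n := by
    refine le_trans (Nat.pow_le_pow_right (by omega) ?_) hl
    omega
  have h2l : 2*(l:ℝ) ≤ n := by
    have : 2*l ≤ n := by nlinarith
    exact_mod_cast this
  -- E
  obtain ⟨E, hE⟩ : ∃ E : ℝ, E = C1 * u / t^2 := ⟨_, rfl⟩
  have hE0 : 0 ≤ E := by rw [hE]; positivity
  have h4C : 4 * C1 ≤ t := by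
    have : (4*C1)^3 ≤ t^3 := by rw [ht3]; exact hC1n
    exact le_of_pow_le_pow_left₀ (by norm_num) ht0.le this
  have hE4 : E ≤ 1/4 := by
    rw [hE, div_le_div_iff₀ (by positivity) (by norm_num)]
    nlinarith
  have hnt : 1 / (n:ℝ) ≤ 1/t^2 := by
    rw [← ht3]
    apply one_div_le_one_div_of_le (by positivity)
    nlinarith [sq_nonneg t]
  have hnt1 : 1 / ((n:ℝ)+1) ≤ 1/t^2 :=
    (one_div_le_one_div_of_le hnpos (by linarith)).trans hnt
  have ht2p : (0:ℝ) < 1/t^2 := by positivity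
  have hC14 : 4 ≤ C1 := by
    rw [hC1]
    have g4 : 0 ≤ |Cs| := abs_nonneg _
    have g5 : 0 ≤ |Cd| := abs_nonneg _
    have g6 : 0 ≤ 3/cK := by positivity
    linarith
  -- the coefficient of dv
  obtain ⟨r1, hr1⟩ : ∃ r : ℝ, r = rf (1/3) l := ⟨_, rfl⟩
  obtain ⟨r2, hr2⟩ : ∃ r : ℝ, r = rf (2/3) l := ⟨_, rfl⟩
  obtain ⟨F, hF⟩ : ∃ r : ℝ, r = (Nat.factorial l : ℝ) := ⟨_, rfl⟩
  have hr10 : 0 < r1 := by rw [hr1]; exact rfp (by norm_num) l
  have hr20 : 0 < r2 := by rw [hr2]; exact rfp (by norm_num) l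
  have hF0 : 0 < F := by rw [hF]; exact_mod_cast Nat.factorial_pos l
  have hr12 : r1 ≤ r2 := by rw [hr1, hr2]; exact rf_12 l
  obtain ⟨d, hdd⟩ : ∃ d : ℝ, d = (((dv n).coeff l : ℚ) : ℝ) := ⟨_, rfl⟩
  have hD := hd n l hn hnn hl2
  rw [← hdd, ← hr1, ← hr2, ← hF] at hD
  obtain ⟨D, hDD⟩ : ∃ D : ℝ, D = ((n:ℝ)/2)^(2*l) / (r1 * F) := ⟨_, rfl⟩
  have hD0 : 0 < D := by rw [hDD]; positivity
  have ed : |d / D - 1| ≤ E := by
    have e1 : d / D - 1 = (d - ((n:ℝ)/2)^(2*l) * (1 / (r1 * F) +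
        3 * (l:ℝ) / (cK * (n:ℝ)^((2:ℝ)/3)) / (r2 * F))) / D +
        3 * (l:ℝ) * r1 / (cK * (n:ℝ)^((2:ℝ)/3) * r2) := by
      rw [hDD, ht2]
      have : ((n:ℝ)/2)^(2*l) ≠ 0 := by positivity
      field_simp
      ring
    have e2 : |(d - ((n:ℝ)/2)^(2*l) * (1 / (r1 * F) +
        3 * (l:ℝ) / (cK * (n:ℝ)^((2:ℝ)/3)) / (r2 * F))) / D| ≤
        |Cd| * u * (1/t^2) := by
      rw [abs_div, abs_of_pos hD0, div_le_iff₀ hD0]
      refine hD.trans ?_
      rw [← hDD]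
      apply mul_le_mul_of_nonneg_right _ hD0.le
      have g1 : ((l:ℝ)+1)^kd ≤ u := by rw [hu]; exact pow_le_pow_right₀ hl1 (by omega)
      calc Cd * ((l:ℝ)+1)^kd / (n:ℝ) = Cd * (((l:ℝ)+1)^kd * (1 / (n:ℝ))) := by ring
        _ ≤ |Cd| * (((l:ℝ)+1)^kd * (1 / (n:ℝ))) :=
          mul_le_mul_of_nonneg_right (le_abs_self _) (by positivity)
        _ ≤ |Cd| * (u * (1/t^2)) := by
          apply mul_le_mul_of_nonneg_left _ (abs_nonneg _)
          exact mul_le_mul g1 hnt (by positivity) (by positivity)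
        _ = _ := by ring
    have e3 : |3 * (l:ℝ) * r1 / (cK * (n:ℝ)^((2:ℝ)/3) * r2)| ≤ 3 / cK * u * (1/t^2) := by
      rw [abs_of_nonneg (by positivity), ht2]
      calc 3 * (l:ℝ) * r1 / (cK * t^2 * r2)
          ≤ 3 * u * r2 / (cK * t^2 * r2) := by
            apply div_le_div_of_nonneg_right _ (by positivity)
            exact mul_le_mul (by linarith) hr12 hr10.le (by positivity)
        _ = _ := by field_simp
    rw [e1]
    refine (abs_add_le _ _).trans ((add_le_add e2 e3).trans ?_)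
    rw [hE, hC1]
    have g3 : 0 ≤ u * (1/t^2) := by positivity
    have g4 : 0 ≤ |Cs| := abs_nonneg _
    have g6 : |Cd| * u * (1/t^2) + 3 / cK * u * (1/t^2) = (|Cd| + 3/cK) * (u * (1/t^2)) := by ring
    have g7 : (4 + |Cs| + |Cd| + 3/cK) * u / t^2 = (4 + |Cs| + |Cd| + 3/cK) * (u * (1/t^2)) := by
      ring
    rw [g6, g7]
    apply mul_le_mul_of_nonneg_right _ g3
    linarith
  have hd0 : 0 < d := by
    have := (abs_le.1 ed).1
    have h1 : 0 < d / D := by linarith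
    exact (div_pos_iff_of_pos_right hD0).1 h1
  refine ⟨by rw [← hdd]; exact hd0, ?_⟩
  -- the identity
  obtain ⟨K, hKK⟩ : ∃ K : ℝ, K = ((kap (n+1) : ℚ) : ℝ) := ⟨_, rfl⟩
  have hK0 : 0 < K := by rw [hKK]; exact_mod_cast kp (n+1)
  have hid : ze n l = (6*(n:ℝ)+9) * (((X * sv (n+1)).coeff l : ℚ) : ℝ) / (2 * K * d) := by
    obtain ⟨m, rfl⟩ : ∃ m, n = m + 2 := ⟨n - 2, by omega⟩
    have hm : Even m := by
      rcases hn with ⟨j, hj⟩
      exact ⟨j - 1, by omega⟩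
    have h1 := ident m l hm
    have h8 := congrArg (fun q : ℚ => (q:ℝ)) h1
    simp only [Rat.cast_mul, Rat.cast_sub, Rat.cast_add, Rat.cast_natCast, Rat.cast_ofNat] at h8
    unfold ze
    have e1 : m + 2 + 2 = m + 4 := by ring
    have e2 : m + 2 + 1 = m + 3 := by ring
    rw [e1] at *
    rw [e2] at *
    rw [← hdd] at h8 ⊢
    rw [← hKK] at h8
    rw [eq_div_iff (by positivity)]
    have e3 : (6*((m+2 : ℕ):ℝ)+9) = 6*(m:ℝ)+21 := by push_cast; ring
    rw [e3, ← h8]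
    field_simp
  rcases l with _ | l'
  · -- l = 0
    rw [hid]
    have : (X * sv (n+1)).coeff 0 = 0 := by rw [coeff_X_mul_zero]
    rw [this]
    simp only [Rat.cast_zero, mul_zero, zero_div, Nat.cast_zero, sub_zero, abs_zero]
    positivity
  · -- l = l' + 1
    rw [coeff_X_mul] at hid
    have hl'0 : (0:ℝ) ≤ l' := Nat.cast_nonneg l'
    have hll : ((l'+1 : ℕ) : ℝ) = (l':ℝ) + 1 := by push_cast; ring
    rw [hll] at hu hlu hl0 hl1 h2l
    obtain ⟨q4, hq4⟩ : ∃ r : ℝ, r = rf (4/3) l' := ⟨_, rfl⟩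
    obtain ⟨q2, hq2⟩ : ∃ r : ℝ, r = rf (2/3) l' := ⟨_, rfl⟩
    obtain ⟨G, hG⟩ : ∃ r : ℝ, r = (Nat.factorial l' : ℝ) := ⟨_, rfl⟩
    have hq40 : 0 < q4 := by rw [hq4]; exact rfp (by norm_num) l'
    have hq20 : 0 < q2 := by rw [hq2]; exact rfp (by norm_num) l'
    have hG0 : 0 < G := by rw [hG]; exact_mod_cast Nat.factorial_pos l'
    have hq42 : q4 ≤ ((l':ℝ)+1) * q2 := by rw [hq4, hq2]; exact rf_42 l'
    have hrq : r1 = 1/3 * q4 := by rw [hr1, hq4]; exact rf_13 l'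
    have hFG : F = ((l':ℝ)+1) * G := by
      rw [hF, hG, Nat.factorial_succ]
      push_cast
      ring
    obtain ⟨s, hsd⟩ : ∃ s : ℝ, s = (((sv (n+1)).coeff l' : ℚ) : ℝ) := ⟨_, rfl⟩
    have hl22 : (l'+1)^2 ≤ n+1 := by
      have : (l'+1)^2 ≤ (l'+1+1)^2 := Nat.pow_le_pow_left (by omega) 2
      omega
    have hS := hs (n+1) l' hn.add_one hl22
    rw [← hsd, ← hKK, ← hq4, ← hq2, ← hG] at hS
    push_cast at hS
    have hKlow : cK * t^2 / 2 ≤ K := by
      have h1 := hK (n+1) (by omega)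
      rw [← hKK] at h1
      push_cast at h1
      have hW : t^2 ≤ ((n:ℝ)+1)^((2:ℝ)/3) := by
        rw [← ht2]
        exact Real.rpow_le_rpow hnpos.le (by linarith) (by norm_num)
      have hW0 : 0 < ((n:ℝ)+1)^((2:ℝ)/3) := by positivity
      generalize ((n:ℝ)+1)^((2:ℝ)/3) = W at h1 hW hW0
      have h2 := (abs_le.1 h1).1
      have h3 : CK * W / ((n:ℝ)+1) ≤ cK * W / 2 := by
        rw [div_le_div_iff₀ (by linarith) (by norm_num)]
        have h4 : 2 * |CK| ≤ n * cK := by rwa [div_le_iff₀ hcK] at hCKn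
        have h5 := le_abs_self CK
        nlinarith
      nlinarith
    obtain ⟨M, hM⟩ : ∃ M : ℝ, M = K * (((n:ℝ)+1)/2)^(2*l') / (q4 * G) := ⟨_, rfl⟩
    have hM0 : 0 < M := by rw [hM]; positivity
    have es : |s / M - 1| ≤ E := by
      have e1 : s / M - 1 = (s - (((n:ℝ)+1)/2)^(2*l') * (K / (q4 * G) + 1 / (q2 * G))) / M +
          q4 / (q2 * K) := by
        rw [hM]
        have : (((n:ℝ)+1)/2)^(2*l') ≠ 0 := by positivity
        generalize (((n:ℝ)+1)/2)^(2*l') = Y at this ⊢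
        field_simp
        ring
      have e2 : |(s - (((n:ℝ)+1)/2)^(2*l') * (K / (q4 * G) + 1 / (q2 * G))) / M| ≤
          |Cs| * u * (1/t^2) := by
        rw [abs_div, abs_of_pos hM0, div_le_iff₀ hM0]
        refine hS.trans ?_
        rw [← hM]
        apply mul_le_mul_of_nonneg_right _ hM0.le
        have g1 : ((l':ℝ)+1)^3 ≤ u := by
          rw [hu]
          calc ((l':ℝ)+1)^3 ≤ ((l':ℝ)+1+1)^3 := pow_le_pow_left₀ (by positivity) (by linarith) 3
            _ ≤ _ := pow_le_pow_right₀ (by linarith) (by omega)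
        calc Cs * ((l':ℝ)+1)^3 / ((n:ℝ)+1) = Cs * (((l':ℝ)+1)^3 * (1 / ((n:ℝ)+1))) := by ring
          _ ≤ |Cs| * (((l':ℝ)+1)^3 * (1 / ((n:ℝ)+1))) :=
            mul_le_mul_of_nonneg_right (le_abs_self _) (by positivity)
          _ ≤ |Cs| * (u * (1/t^2)) := by
            apply mul_le_mul_of_nonneg_left _ (abs_nonneg _)
            exact mul_le_mul g1 hnt1 (by positivity) (by positivity)
          _ = _ := by ring
      have e3 : |q4 / (q2 * K)| ≤ 2 / cK * u * (1/t^2) := by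
        rw [abs_of_nonneg (by positivity), div_le_iff₀ (by positivity)]
        have g2 : 1 ≤ 2 / cK * (1/t^2) * K := by
          have : 2 / cK * (1/t^2) * (cK * t^2 / 2) = 1 := by field_simp
          calc (1:ℝ) = 2 / cK * (1/t^2) * (cK * t^2 / 2) := this.symm
            _ ≤ _ := mul_le_mul_of_nonneg_left hKlow (by positivity)
        calc q4 ≤ ((l':ℝ)+1) * q2 := hq42
          _ ≤ u * q2 := mul_le_mul_of_nonneg_right (by linarith) hq20.le
          _ = 1 * (u * q2) := (one_mul _).symm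
          _ ≤ (2 / cK * (1/t^2) * K) * (u * q2) := mul_le_mul_of_nonneg_right g2 (by positivity)
          _ = _ := by ring
      rw [e1]
      refine (abs_add_le _ _).trans ((add_le_add e2 e3).trans ?_)
      rw [hE, hC1]
      have g3 : 0 ≤ u * (1/t^2) := by positivity
      have g4 : 0 ≤ |Cd| := abs_nonneg _
      have g5 : 0 ≤ 1/cK := by positivity
      have g6 : |Cs| * u * (1/t^2) + 2 / cK * u * (1/t^2) = (|Cs| + 2/cK) * (u * (1/t^2)) := by ring
      have g7 : (4 + |Cs| + |Cd| + 3/cK) * u / t^2 = (4 + |Cs| + |Cd| + 3/cK) * (u * (1/t^2)) := by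
        ring
      rw [g6, g7]
      apply mul_le_mul_of_nonneg_right _ g3
      have g8 : 3 / cK = 2 / cK + 1 / cK := by ring
      linarith
    have ea : |3/(2*(n:ℝ))| ≤ E := by
      rw [abs_of_nonneg (by positivity)]
      calc 3/(2*(n:ℝ)) = 3/2 * (1/n) := by field_simp
        _ ≤ C1 * u * (1/t^2) := by
          apply mul_le_mul _ hnt (by positivity) (by positivity)
          nlinarith
        _ = E := by rw [hE]; ring
    have eb : |(((n:ℝ)+1)/n)^(2*l') - 1| ≤ E := by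
      refine (fac_b hn1' (by linarith)).trans ?_
      calc 4 * (l':ℝ) / n = 4 * (l':ℝ) * (1/n) := by ring
        _ ≤ C1 * u * (1/t^2) := by
          apply mul_le_mul _ hnt (by positivity) (by positivity)
          exact mul_le_mul hC14 (by linarith) hl'0 hC10.le
        _ = E := by rw [hE]; ring
    have hze : (n:ℝ)/2 * ze n (l'+1) = 2*((l':ℝ)+1) *
        ((1 + 3/(2*(n:ℝ))) * (1 + ((((n:ℝ)+1)/n)^(2*l') - 1)) * (1 + (s/M - 1)) /
          (1 + (d/D - 1))) := by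
      rw [hid, ← hsd, hM, hDD, hrq, hFG]
      have h6 : (((n:ℝ)+1)/n)^(2*l') = (((n:ℝ)+1)/2)^(2*l') / ((n:ℝ)/2)^(2*l') := by
        rw [← div_pow]
        congr 1
        field_simp
      have h66 : ((n:ℝ)/2)^(2*(l'+1)) = ((n:ℝ)/2)^(2*l') * ((n:ℝ)/2)^2 := by
        rw [← pow_add]
        congr 1
      rw [h6, h66]
      have h5 : ((n:ℝ)/2)^(2*l') ≠ 0 := by positivity
      have h7 : (((n:ℝ)+1)/2)^(2*l') ≠ 0 := by positivity
      generalize (((n:ℝ)+1)/2)^(2*l') = Y at h7 ⊢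
      generalize ((n:ℝ)/2)^(2*l') = Z at h5 ⊢
      have hd00 := hd0.ne'
      have hl1' : (l':ℝ) + 1 ≠ 0 := by positivity
      field_simp
      ring
    rw [hze, htm, hll]
    have hq := quot hE0 hE4 ea eb es ed
    have e9 : (2*((l':ℝ)+1)) = 2*((l':ℝ)+1) * 1 := by ring
    nth_rewrite 2 [e9]
    rw [← mul_sub, abs_mul, abs_of_pos (by positivity : (0:ℝ) < 2*((l':ℝ)+1))]
    calc 2*((l':ℝ)+1) * _ ≤ 2*((l':ℝ)+1) * (12 * E) :=
          mul_le_mul_of_nonneg_left hq (by positivity)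
      _ ≤ 2 * u * (12 * E) := by
          apply mul_le_mul_of_nonneg_right _ (by positivity)
          linarith
      _ = 24 * C1 * (u * u) * (1/t^2) := by rw [hE]; ring
      _ ≤ 24 * C1 * ((l':ℝ)+1+1)^(3*k1) * (1/t^2) := by
          apply mul_le_mul_of_nonneg_right _ ht2p.le
          apply mul_le_mul_of_nonneg_left _ (by positivity)
          rw [hu, ← pow_add]
          exact pow_le_pow_right₀ hl1 (by omega)

end Pool.Agent.H966.N9
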