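import Pool.Agent.H966.N9.Stm

/-!
# Tasks CA, CB, C2A, C2B (helper339, adapted from N5/C.lean of helper213): limits and bounds of the
brackets
-/

set_option autoImplicit false

namespace Pool.Agent.H966.N9

open Pool.Agent.NH38.Fork (sv)
open Pool.Agent.H965.K3 (dv)
open Pool.Agent.H966.N5 (xi S_xi B1 br1)
open Filter Topology Finset

namespace C

lemma B1_eq (n ξ g : ℝ) : n / 2 * B1 ξ g = n / 2 * ξ - n / 2 * g - n / 2 * ξ * g := by
  unfold B1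
  ring

/-! ### limits -/

section lim

variable {N : ℕ → ℕ} (hN : Tendsto N atTop atTop)

include hN

lemma t_lim : Tendsto (fun i => ((N i : ℝ))⁻¹) atTop (𝓝 0) :=
  tendsto_inv_atTop_zero.comp (tendsto_natCast_atTop_atTop.comp hN)

lemma N_pos : ∀ᶠ i in atTop, (0 : ℝ) < N i := by
  filter_upwards [hN.eventually_ge_atTop 1] with i hi
  exact_mod_cast hi

lemma u_lim (j : ℕ) : Tendsto (fun i => (N i : ℝ) / 2 * gK (N i) j) atTop
    (𝓝 (2 * (j : ℝ) + 2 / 3)) := by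
  have hc : ContinuousAt (fun t : ℝ => (2 + 3 * t) * (6 * (j : ℝ) + 2) /
      ((3 + 2 * t) * (1 + (3 + 2 * (j : ℝ)) * t)) / 2) 0 := by
    apply ContinuousAt.div_const
    exact ContinuousAt.div (by fun_prop) (by fun_prop) (by norm_num)
  have h := hc.tendsto.comp (t_lim hN)
  have e0 : (2 + 3 * (0 : ℝ)) * (6 * (j : ℝ) + 2) /
      ((3 + 2 * 0) * (1 + (3 + 2 * (j : ℝ)) * 0)) / 2 = 2 * (j : ℝ) + 2 / 3 := by
    norm_num
    ring
  rw [e0] at h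
  refine h.congr' ?_
  filter_upwards [N_pos hN] with i hi
  have h1 : (3 * (N i : ℝ) + 2) ≠ 0 := by positivity
  have h2 : ((N i : ℝ) + 3 + 2 * j) ≠ 0 := by positivity
  have e1 : 3 + 2 * ((N i : ℝ))⁻¹ = (3 * N i + 2) / N i := by field_simp
  have e2 : 1 + (3 + 2 * (j : ℝ)) * ((N i : ℝ))⁻¹ = (N i + 3 + 2 * j) / N i := by
    field_simp
    ring
  have e3 : 2 + 3 * ((N i : ℝ))⁻¹ = (2 * N i + 3) / N i := by field_simp
  simp only [Function.comp_apply]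
  rw [e1, e2, e3]
  unfold gK
  field_simp

lemma g_lim (j : ℕ) : Tendsto (fun i => gK (N i) j) atTop (𝓝 0) := by
  have h := (u_lim hN j).mul ((t_lim hN).const_mul 2)
  rw [mul_zero, mul_zero] at h
  refine h.congr' ?_
  filter_upwards [N_pos hN] with i hi
  field_simp

lemma a_lim {a : ℕ → ℕ} {ρ : ℝ} (hρ : 0 < ρ) (la : Tendsto (fun i => (a i : ℝ) / N i) atTop (𝓝 ρ)) :
    Tendsto (fun i => (a i : ℝ)) atTop atTop := by
  have hN' : Tendsto (fun i => (N i : ℝ)) atTop atTop := tendsto_natCast_atTop_atTop.comp hN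
  have h := la.pos_mul_atTop hρ hN'
  refine h.congr' ?_
  filter_upwards [N_pos hN] with i hi
  exact div_mul_cancel₀ _ hi.ne'

lemma x_lim {a : ℕ → ℕ} {ρ : ℝ} (hρ : 0 < ρ) {P : ℕ → Prop} (ho : ∀ i, P (a i))
    (la : Tendsto (fun i => (a i : ℝ) / N i) atTop (𝓝 ρ)) {f : ℕ → ℝ} {L D : ℝ} {n1 : ℕ}
    (hf : ∀ n : ℕ, P n → n1 ≤ n → |(n : ℝ) / 2 * f n - L| ≤ D * (n : ℝ) ^ (-(2 : ℝ) / 3)) :
    Tendsto (fun i => (N i : ℝ) / 2 * f (a i)) atTop (𝓝 (L / ρ)) := by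
  have haR := a_lim hN hρ la
  have haN : Tendsto a atTop atTop := tendsto_natCast_atTop_iff.1 haR
  have h1 : Tendsto (fun i => (a i : ℝ) / 2 * f (a i)) atTop (𝓝 L) := by
    rw [tendsto_iff_norm_sub_tendsto_zero]
    have h2 : Tendsto (fun i => D * ((a i : ℝ)) ^ (-(2 : ℝ) / 3)) atTop
        (𝓝 (D * 0)) := by
      apply Tendsto.const_mul
      have h3 := (tendsto_rpow_neg_atTop (by norm_num : (0 : ℝ) < 2 / 3)).comp haR
      refine h3.congr fun i => ?_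
      simp only [Function.comp_apply]
      congr 1
      ring
    rw [mul_zero] at h2
    refine squeeze_zero' (Eventually.of_forall fun i => norm_nonneg _) ?_ h2
    filter_upwards [haN.eventually_ge_atTop n1] with i h3
    exact hf (a i) (ho i) h3
  have h5 : Tendsto (fun i => ((a i : ℝ) / N i)⁻¹) atTop (𝓝 ρ⁻¹) := la.inv₀ hρ.ne'
  have h6 := h1.mul h5
  rw [← div_eq_mul_inv] at h6
  refine h6.congr' ?_
  filter_upwards [haR.eventually_gt_atTop 0, N_pos hN] with i hi hi'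
  field_simp

end lim

/-! ### bounds -/

lemma g_nonneg (N j : ℕ) : 0 ≤ gK N j := by
  unfold gK
  positivity

lemma g_le (N j : ℕ) : gK N j ≤ 9 := by
  unfold gK
  rw [div_le_iff₀ (by positivity)]
  have h1 : (0 : ℝ) ≤ N := Nat.cast_nonneg N
  have h2 : (0 : ℝ) ≤ j := Nat.cast_nonneg j
  have h3 : (0 : ℝ) ≤ (N : ℝ) * j := mul_nonneg h1 h2
  have h4 : (0 : ℝ) ≤ (N : ℝ) * N := mul_nonneg h1 h1
  nlinarith

lemma u_le (N j : ℕ) : (N : ℝ) / 2 * gK N j ≤ 9 * ((j : ℝ) + 1) := by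
  unfold gK
  have h1 : (0 : ℝ) ≤ N := Nat.cast_nonneg N
  have h2 : (0 : ℝ) ≤ j := Nat.cast_nonneg j
  rw [← mul_div_assoc, div_le_iff₀ (by positivity)]
  have h3 : (0 : ℝ) ≤ (N : ℝ) * j := mul_nonneg h1 h2
  have h4 : (0 : ℝ) ≤ (N : ℝ) * N := mul_nonneg h1 h1
  have h5 : (0 : ℝ) ≤ (N : ℝ) * N * j := mul_nonneg h4 h2
  have h6 : (0 : ℝ) ≤ (N : ℝ) * j * j := mul_nonneg h3 h2
  have h7 : (0 : ℝ) ≤ (j : ℝ) * j := mul_nonneg h2 h2
  nlinarith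

/-- the bound for the relative difference -/
lemma x_bound {N a l : ℕ} {k : ℕ} {C D ρ M L v : ℝ} (hρ : 0 < ρ) (hM : 1 ≤ M)
    (hl : (l : ℝ) + 1 ≤ M) (hL0 : 0 ≤ L) (hL : L ≤ 2 * M)
    (hC : |C| + 2 ≤ D) (ha1 : 1 ≤ a) (hNa : ρ / 2 * N ≤ a)
    (h : |(a : ℝ) / 2 * v - L| ≤
      C * ((l : ℝ) + 1) ^ k * (a : ℝ) ^ (-(2 : ℝ) / 3)) :
    |(N : ℝ) / 2 * v| ≤ 2 / ρ * D * M ^ (k + 1) := by
  have haR : (1 : ℝ) ≤ a := by exact_mod_cast ha1
  have ha0 : (0 : ℝ) < a := by linarith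
  have hl0 : (0 : ℝ) ≤ l := Nat.cast_nonneg l
  have h1 : (a : ℝ) ^ (-(2 : ℝ) / 3) ≤ 1 :=
    Real.rpow_le_one_of_one_le_of_nonpos haR (by norm_num)
  have h1' : 0 ≤ (a : ℝ) ^ (-(2 : ℝ) / 3) := Real.rpow_nonneg ha0.le _
  have h2 : ((l : ℝ) + 1) ^ k ≤ M ^ (k + 1) :=
    (pow_le_pow_left₀ (by positivity) hl k).trans (pow_le_pow_right₀ hM (Nat.le_succ k))
  have h3 : C * ((l : ℝ) + 1) ^ k * (a : ℝ) ^ (-(2 : ℝ) / 3) ≤ |C| * M ^ (k + 1) := by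
    calc C * ((l : ℝ) + 1) ^ k * (a : ℝ) ^ (-(2 : ℝ) / 3)
        ≤ |C| * ((l : ℝ) + 1) ^ k * (a : ℝ) ^ (-(2 : ℝ) / 3) :=
          mul_le_mul_of_nonneg_right (mul_le_mul_of_nonneg_right (le_abs_self C) (by positivity))
            h1'
      _ ≤ |C| * ((l : ℝ) + 1) ^ k * 1 := mul_le_mul_of_nonneg_left h1 (by positivity)
      _ ≤ |C| * M ^ (k + 1) := by
          rw [mul_one]
          exact mul_le_mul_of_nonneg_left h2 (abs_nonneg C)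
  have hMk : M ≤ M ^ (k + 1) := le_self_pow₀ hM (Nat.succ_ne_zero k)
  have h4 : |(a : ℝ) / 2 * v| ≤ D * M ^ (k + 1) := by
    have h5 := h.trans h3
    rw [abs_le] at h5 ⊢
    have h6 : (|C| + 2) * M ^ (k + 1) ≤ D * M ^ (k + 1) :=
      mul_le_mul_of_nonneg_right hC (by positivity)
    have h7 : (|C| + 2) * M ^ (k + 1) = |C| * M ^ (k + 1) + 2 * M ^ (k + 1) := by ring
    constructor <;> linarith [h5.1, h5.2]
  have h8 : (N : ℝ) ≤ 2 / ρ * a := by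
    rw [div_mul_eq_mul_div, le_div_iff₀ hρ]
    linarith
  have h9 : |(N : ℝ) / 2 * v| = (N : ℝ) / 2 * |v| := by
    rw [abs_mul, abs_of_nonneg (by positivity : (0 : ℝ) ≤ (N : ℝ) / 2)]
  have h10 : |(a : ℝ) / 2 * v| = (a : ℝ) / 2 * |v| := by
    rw [abs_mul, abs_of_nonneg (by positivity : (0 : ℝ) ≤ (a : ℝ) / 2)]
  rw [h9]
  rw [h10] at h4
  calc (N : ℝ) / 2 * |v| ≤ (2 / ρ * a) / 2 * |v| := by
        apply mul_le_mul_of_nonneg_right _ (abs_nonneg _)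
        linarith
    _ = 2 / ρ * ((a : ℝ) / 2 * |v|) := by ring
    _ ≤ 2 / ρ * (D * M ^ (k + 1)) := mul_le_mul_of_nonneg_left h4 (by positivity)
    _ = 2 / ρ * D * M ^ (k + 1) := by ring

lemma bound1 {x u g E M : ℝ} {K : ℕ} (hM : 1 ≤ M) (hE : 0 ≤ E) (hx : |x| ≤ E * M ^ (K + 1))
    (hu0 : 0 ≤ u) (hu : u ≤ 9 * M) (hg0 : 0 ≤ g) (hg : g ≤ 9) :
    |x - u - x * g| ≤ (10 * E + 9) * M ^ (2 * K + 4) := by
  have p1 : M ^ (K + 1) ≤ M ^ (2 * K + 4) := pow_le_pow_right₀ hM (by omega)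
  have p2 : M ≤ M ^ (2 * K + 4) := le_self_pow₀ hM (by omega)
  have h1 : |x * g| ≤ 9 * (E * M ^ (K + 1)) := by
    rw [abs_mul, abs_of_nonneg hg0]
    calc |x| * g ≤ (E * M ^ (K + 1)) * 9 := mul_le_mul hx hg hg0 (by positivity)
      _ = _ := by ring
  have h2 : E * M ^ (K + 1) ≤ E * M ^ (2 * K + 4) := mul_le_mul_of_nonneg_left p1 hE
  rw [abs_le] at hx h1 ⊢
  constructor <;> nlinarith [hx.1, hx.2, h1.1, h1.2]

/-- the limit of the bracket -/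
lemma lim1 {a N : ℕ → ℕ} {ρ L : ℝ} {f : ℕ → ℝ} (hNt : Tendsto N atTop atTop)
    (hx : Tendsto (fun i => (N i : ℝ) / 2 * f (a i)) atTop (𝓝 (L / ρ))) (j : ℕ) :
    Tendsto (fun i => (N i : ℝ)/2 * B1 (f (a i)) (gK (N i) j)) atTop
      (𝓝 (br1 L (2*(j : ℝ) + 2/3) ρ)) := by
  have h1 := (hx.sub (u_lim hNt j)).sub (hx.mul (g_lim hNt j))
  rw [mul_zero, sub_zero] at h1
  refine h1.congr fun i => ?_
  rw [B1_eq]

/-- the bound of the bracket -/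
lemma bd1 {N a l l' k : ℕ} {C ρ L v M : ℝ} (hρ : 0 < ρ) (hMd : M = (l : ℝ) + l' + 1)
    (m : ℕ) (hm : (m : ℝ) + 1 ≤ M) (hL0 : 0 ≤ L) (hL : L ≤ 2 * M) (ha1 : 1 ≤ a)
    (hNa : ρ / 2 * N ≤ a)
    (h : |(a : ℝ) / 2 * v - L| ≤ C * ((m : ℝ) + 1) ^ k * (a : ℝ) ^ (-(2 : ℝ) / 3)) :
    |(N : ℝ)/2 * B1 v (gK N (l+l'))| ≤ (10 * (2 / ρ * (|C| + 2)) + 9) * M ^ (2 * k + 4) := by
  have hM : (1 : ℝ) ≤ M := by
    have : (0 : ℝ) ≤ (l : ℝ) + l' := by positivity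
    linarith
  have f1 := x_bound (N := N) hρ hM hm hL0 hL le_rfl ha1 hNa h
  have hj : ((l + l' : ℕ) : ℝ) + 1 = M := by
    rw [hMd]
    push_cast
    ring
  have u1 := u_le N (l + l')
  rw [hj] at u1
  have w1 : 0 ≤ (N : ℝ) / 2 * gK N (l + l') := mul_nonneg (by positivity) (g_nonneg _ _)
  rw [B1_eq]
  exact bound1 hM (by positivity) f1 w1 u1 (g_nonneg _ _) (g_le _ _)

end C

open C in
theorem t_CA : S_CA := by
  intro hze a b N ρ σ h l l'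
  obtain ⟨k, C, n0, hC⟩ := hze
  have hx := x_lim h.hNt h.hρ (P := Even) h.ha h.la (f := fun n => ze n l) (L := 2 * (l : ℝ))
    (D := C * ((l : ℝ) + 1) ^ k) (n1 := max n0 ((l + 1) ^ k))
    (fun n hn h1 => (hC n l hn ((le_max_left _ _).trans h1) ((le_max_right _ _).trans h1)).2)
  exact lim1 (f := fun n => ze n l) h.hNt hx (l + l')

open C in
theorem t_CB : S_CB := by
  intro hxi a b N ρ σ h l l'
  obtain ⟨k, C, n0, hC⟩ := hxi
  have hx := x_lim h.hNt h.hσ (P := Odd) h.hb h.lb (f := fun n => xi n l')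
    (L := 2 * (l' : ℝ) + 2 / 3)
    (D := C * ((l' : ℝ) + 1) ^ k) (n1 := max n0 ((l' + 1) ^ k))
    (fun n hn h1 => (hC n l' hn ((le_max_left _ _).trans h1) ((le_max_right _ _).trans h1)).2)
  exact lim1 (f := fun n => xi n l') h.hNt hx (l + l')

open C in
theorem t_C2A : S_C2A := by
  intro hze a b N ρ σ h
  obtain ⟨k, C, n0, hC⟩ := hze
  have haN : Tendsto a atTop atTop := tendsto_natCast_atTop_iff.1 (a_lim h.hNt h.hρ h.la)
  have hρ := h.hρ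
  refine ⟨2 * k + 4, 10 * (2 / ρ * (|C| + 2)) + 9, by positivity, ?_⟩
  filter_upwards [haN.eventually_ge_atTop n0, haN.eventually_ge_atTop 1, N_pos h.hNt,
    h.la.eventually_const_lt (by linarith : ρ / 2 < ρ)] with i h1 h3 h5 h6 l l' h8 h9
  have hNa : ρ / 2 * N i ≤ a i := ((lt_div_iff₀ h5).1 h6).le
  have c1 : (l + 1) ^ k ≤ a i := by
    refine le_trans ?_ h8
    calc (l + 1) ^ k ≤ (l + l' + 1) ^ k := Nat.pow_le_pow_left (by omega) k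
      _ ≤ (l + l' + 1) ^ (2 * k + 4) := Nat.pow_le_pow_right (by omega) (by omega)
  obtain ⟨d1, d2⟩ := hC (a i) l (h.ha i) h1 c1
  have hl0 : (0 : ℝ) ≤ (l : ℝ) := Nat.cast_nonneg _
  have hl0' : (0 : ℝ) ≤ (l' : ℝ) := Nat.cast_nonneg _
  exact ⟨d1, bd1 hρ rfl l (by linarith) (by positivity) (by linarith) h3 hNa d2⟩

open C in
theorem t_C2B : S_C2B := by
  intro hxi a b N ρ σ h
  obtain ⟨k, C, n0, hC⟩ := hxi
  have hbN : Tendsto b atTop atTop := tendsto_natCast_atTop_iff.1 (a_lim h.hNt h.hσ h.lb)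
  have hσ := h.hσ
  refine ⟨2 * k + 4, 10 * (2 / σ * (|C| + 2)) + 9, by positivity, ?_⟩
  filter_upwards [hbN.eventually_ge_atTop n0, hbN.eventually_ge_atTop 1, N_pos h.hNt,
    h.lb.eventually_const_lt (by linarith : σ / 2 < σ)] with i h1 h3 h5 h6 l l' h8 h9
  have hNb : σ / 2 * N i ≤ b i := ((lt_div_iff₀ h5).1 h6).le
  have c1 : (l' + 1) ^ k ≤ b i := by
    refine le_trans ?_ h9
    calc (l' + 1) ^ k ≤ (l + l' + 1) ^ k := Nat.pow_le_pow_left (by omega) k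
      _ ≤ (l + l' + 1) ^ (2 * k + 4) := Nat.pow_le_pow_right (by omega) (by omega)
  obtain ⟨d1, d2⟩ := hC (b i) l' (h.hb i) h1 c1
  have hl0 : (0 : ℝ) ≤ (l : ℝ) := Nat.cast_nonneg _
  have hl0' : (0 : ℝ) ≤ (l' : ℝ) := Nat.cast_nonneg _
  exact ⟨d1, bd1 hσ rfl l' (by linarith) (by positivity) (by linarith) h3 hNb d2⟩

end Pool.Agent.H966.N9
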