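import Pool.Agent.H966.N9.Stm
import Pool.Agent.H965.K3.A1
import Pool.Graph.R_pool_sql_team_seeded_3dad9d7b.NH38.Fork.NG1
import Pool.Graph.R_pool_sql_team_seeded_3dad9d7b.NH38.Fork.NG2
import Pool.Graph.R_pool_sql_team_seeded_3dad9d7b.NH38.Fork.NG5
import Pool.Graph.R_pool_sql_team_seeded_3dad9d7b.NH38.Fork.N1
import Pool.Graph.R_pool_sql_team_seeded_3dad9d7b.NH38.Fork.N5

/-!
TASK D of N9: the limits of the single terms (helper105 for helper966, after K3/A5 of helper539).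
-/

set_option autoImplicit false

namespace Pool.Agent.H966.N9

open Polynomial Filter Topology Finset
open Pool.Agent.NH38.Fork
open Pool.Agent.NH38.Fork.NG5
open Pool.Agent.H965.K3 (dv FK cd ap3 S3_F4 t3_dvA)

theorem t_D1 : S_D1 := by
  intro j x y
  have h1 : ∑ p ∈ antidiagonal j, TT p.1 p.2 x y = ∑ p ∈ antidiagonal j, TT p.2 p.1 x y :=
    (Finset.Nat.sum_antidiagonal_swap (f := fun p : ℕ × ℕ => TT p.1 p.2 x y)).symm
  rw [h1, Finset.Nat.sum_antidiagonal_eq_sum_range_succ (fun a b => TT b a x y) j]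
  unfold ap3
  rw [Finset.mul_sum, Finset.sum_div]
  refine Finset.sum_congr rfl fun i hi => ?_
  rw [mem_range] at hi
  unfold TT
  have h2 : j - i + i = j := by omega
  rw [h2]
  have h3 : (3 / (2 * Bt) : ℝ) = 3 / Bt / 2 := by rw [mul_comm, div_div]
  rw [h3]
  ring

theorem t_D2 : S_D2 := by
  intro a b N ρ σ hS l l'
  obtain ⟨hρ, hσ, hρσ, ha, ha2, hb, hN, habN, hNt, hla, hlb⟩ := hS
  have hMJ := t_MJ
  have hsv := t_svA
  have hKAP := t_KAP
  have hdA := t3_dvA
  choose n hn using hN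
  have hN2 : ∀ i, N i = 2 * n i + 1 := hn
  have hnt : Tendsto n atTop atTop := by
    rw [tendsto_atTop] at hNt ⊢
    intro b
    filter_upwards [hNt (2 * b + 1)] with i hi
    have := hN2 i
    omega
  have hnt' : Tendsto (fun i => ((n i : ℕ) : ℝ)) atTop atTop :=
    tendsto_natCast_atTop_atTop.comp hnt
  have hc : ∀ c : ℝ, Tendsto (fun i => c / (n i : ℝ)) atTop (𝓝 0) := fun c =>
    Tendsto.div_atTop tendsto_const_nhds hnt'
  have key : ∀ (f : ℕ → ℕ) (τ : ℝ), Tendsto (fun i => (f i : ℝ) / N i) atTop (𝓝 τ) →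
      Tendsto (fun i => (f i : ℝ) / n i) atTop (𝓝 (2 * τ)) := by
    intro f τ hf
    have h1 : Tendsto (fun i => (f i : ℝ) / N i * (2 * (1 + (1/2) / n i))) atTop
        (𝓝 (τ * (2 * (1 + 0)))) := hf.mul ((tendsto_const_nhds.add (hc (1/2))).const_mul 2)
    rw [show τ * (2 * (1 + 0)) = 2 * τ by ring] at h1
    refine h1.congr' ?_
    filter_upwards [hnt'.eventually_gt_atTop 0] with i hi
    rw [hN2 i]
    push_cast
    have h2 : (2 * (n i : ℝ) + 1) ≠ 0 := by positivity
    field_simp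
  have hla' := key a ρ hla
  have hlb' := key b σ hlb
  have toinf : ∀ (f : ℕ → ℕ) (τ : ℝ), 0 < τ → Tendsto (fun i => (f i : ℝ) / n i) atTop (𝓝 τ) →
      Tendsto f atTop atTop := by
    intro f τ hτ hf
    have h1 : Tendsto (fun i => (n i : ℝ) * ((f i : ℝ) / n i)) atTop atTop :=
      hnt'.atTop_mul_pos hτ hf
    have h2 : Tendsto (fun i => (f i : ℝ)) atTop atTop := by
      refine h1.congr' ?_
      filter_upwards [hnt'.eventually_gt_atTop 0] with i hi
      field_simp
    exact tendsto_natCast_atTop_iff.mp h2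
  have hat : Tendsto a atTop atTop := toinf a (2*ρ) (by positivity) hla'
  have hbt : Tendsto b atTop atTop := toinf b (2*σ) (by positivity) hlb'
  have half : ∀ (f : ℕ → ℕ), Tendsto f atTop atTop →
      Tendsto (fun i => (f i - 1) / 2) atTop atTop := by
    intro f hf
    rw [tendsto_atTop]
    intro c
    filter_upwards [hf.eventually_ge_atTop (2 * c + 1)] with i hi
    omega
  have half' : ∀ (f : ℕ → ℕ), Tendsto f atTop atTop → Tendsto (fun i => f i / 2) atTop atTop := by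
    intro f hf
    rw [tendsto_atTop]
    intro c
    filter_upwards [hf.eventually_ge_atTop (2 * c + 1)] with i hi
    omega
  have hK := hKAP b n (2*σ) (by positivity) hbt hnt hlb'
  have hv : Tendsto (fun i => (((dv (a i)).coeff l : ℚ) : ℝ) / (a i : ℝ)^(2*l)) atTop
      (𝓝 (1 / (4^l * rf (1/3) l * (Nat.factorial l : ℝ)))) := by
    refine ((hdA l).comp (half' a hat)).congr fun i => ?_
    obtain ⟨y, hy⟩ := ha i
    simp only [Function.comp]
    rw [show 2 * (a i / 2) = a i by omega]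
  have hs : Tendsto (fun i => (((sv (b i)).coeff l' / kap (b i) : ℚ) : ℝ) /
      (b i : ℝ)^(2*l')) atTop (𝓝 (1 / (4^l' * rf (4/3) l' * (Nat.factorial l' : ℝ)))) := by
    refine ((hsv l').comp (half b hbt)).congr fun i => ?_
    obtain ⟨y, hy⟩ := hb i
    simp only [Function.comp]
    rw [show 2 * ((b i - 1) / 2) + 1 = b i by omega]
  have hm := mj_lim hMJ hnt (l + l')
  have hterm := (((hs.mul (hlb'.pow (2*l'))).mul (hv.mul (hla'.pow (2*l)))).mul
    (hK.mul hm)).div_const 2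
  have hval : (1 / (4^l' * rf (4/3) l' * (Nat.factorial l' : ℝ))) * (2*σ)^(2*l') *
      ((1 / (4^l * rf (1/3) l * (Nat.factorial l : ℝ))) * (2*ρ)^(2*l)) *
      ((2*σ)^((2:ℝ)/3) * (3 / Bt) * (rf (1/3) (l+l') * rf (2/3) (l+l'))) / 2 =
      TT l l' ρ σ := by
    unfold TT
    rw [mul_pow, mul_pow, pow_mul (2:ℝ), pow_mul (2:ℝ), pow_mul σ, pow_mul ρ]
    have h4 : ((2:ℝ)^2) = 4 := by norm_num
    rw [h4]
    have h5 : (4:ℝ)^l ≠ 0 := by positivity
    have h6 : (4:ℝ)^l' ≠ 0 := by positivity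
    field_simp
  rw [hval] at hterm
  refine hterm.congr' ?_
  filter_upwards [hat.eventually_gt_atTop 0, hbt.eventually_gt_atTop 0,
    hnt'.eventually_gt_atTop 0] with i hia hib hin
  rw [hN2 i]
  have h1 : (a i : ℝ) ≠ 0 := by positivity
  have h2 : (b i : ℝ) ≠ 0 := by positivity
  have h3 : (n i : ℝ) ≠ 0 := hin.ne'
  have h4 : ((kap (b i) : ℚ) : ℝ) ≠ 0 := by exact_mod_cast (kap_pos (b i)).ne'
  have h5 : ((M0 (n i) : ℚ) : ℝ) ≠ 0 := by exact_mod_cast (M0_pos (n i)).ne'
  push_cast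
  rw [mul_add, pow_add, div_pow, div_pow]
  field_simp

end Pool.Agent.H966.N9
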