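import Pool.Agent.H966.N9.Stm

set_option autoImplicit false

/-!
The local limit theorem for the exits of the exploration path: geometric bounds of the terms, the
exact ratio of the weights (helper966).
-/

namespace Pool.Agent.H966.N9

open Pool.Agent.NH38.Fork (sv mj kap M0 t_pos t_MJ)
open Pool.Agent.NH38.Fork.NG5 (hf mj_eq M0_pos mj_nonneg mj_le)
open Pool.Agent.H965.K3 (dv FK cd t3_pos t3_FKle)
open Filter Topology Finset

namespace G

theorem hcg (x y j : ℕ) (hx : Even x) : 0 ≤ (dv x * sv y).coeff j := by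
  rw [Polynomial.coeff_mul]
  exact Finset.sum_nonneg fun p _ => mul_nonneg (t3_pos x p.1 hx) (t_pos y p.2).2

theorem M0_succ (n : ℕ) : M0 (n+1) = M0 n *
    (((n:ℚ) + 1/2) * (n + 5/3) / ((n + 5/6) * (n + 2))) := by
  unfold M0
  rw [Finset.prod_range_succ]
  ring

theorem hf_prod (n : ℕ) : ∀ j : ℕ, j ≤ n → (∏ i ∈ range j, hf (n+1) i) =
    (∏ i ∈ range j, hf n i) * ((2*(n:ℚ) + 1 - 2*j) * (2*n + 4) / ((2*n + 1) * (2*n + 4 + 2*j))) := by
  intro j
  induction j with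
  | zero =>
    intro _
    have hn0 : (0:ℚ) ≤ n := Nat.cast_nonneg n
    have h1 : (2*(n:ℚ) + 1) ≠ 0 := by positivity
    have h2 : (2*(n:ℚ) + 4) ≠ 0 := by positivity
    simp only [Finset.prod_range_zero, Nat.cast_zero, mul_zero, sub_zero, add_zero, one_mul]
    rw [div_self (mul_ne_zero h1 h2)]
  | succ j ih =>
    intro hj
    have hjn : (j:ℚ) + 1 ≤ n := by exact_mod_cast hj
    rw [Finset.prod_range_succ, ih (by omega), Finset.prod_range_succ]
    have hj0 : (0:ℚ) ≤ j := Nat.cast_nonneg j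
    have hn0 : (0:ℚ) ≤ n := Nat.cast_nonneg n
    unfold hf
    have g1 : (2*(n:ℚ) - 1 - 2*j) ≠ 0 := by
      have : (0:ℚ) < 2*(n:ℚ) - 1 - 2*j := by linarith
      exact this.ne'
    have g2 : (2*(n:ℚ) + 4 + 2*j) ≠ 0 := by positivity
    have g3 : (2*((n:ℚ)+1) - 1 - 2*j) ≠ 0 := by
      have : (0:ℚ) < 2*((n:ℚ)+1) - 1 - 2*j := by linarith
      exact this.ne'
    have g4 : (2*((n:ℚ)+1) + 4 + 2*j) ≠ 0 := by positivity
    have g5 : (2*(n:ℚ) + 1) ≠ 0 := by positivity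
    have g6 : (2*(n:ℚ) + 4 + 2*((j:ℚ)+1)) ≠ 0 := by positivity
    push_cast
    have e : ∀ A : ℚ, A * ((2*(n:ℚ) + 1 - 2*j) * (2*n + 4) / ((2*n + 1) * (2*n + 4 + 2*j))) *
        (((j:ℚ) + 1/3) * (j + 2/3) / ((2*((n:ℚ)+1) - 1 - 2*j) * (2*((n:ℚ)+1) + 4 + 2*j))) =
        A * (((j:ℚ) + 1/3) * (j + 2/3) / ((2*(n:ℚ) - 1 - 2*j) * (2*(n:ℚ) + 4 + 2*j))) *
        ((2*(n:ℚ) + 1 - 2*(j+1)) * (2*n + 4) / ((2*n + 1) * (2*n + 4 + 2*(j+1)))) := by
      intro A
      field_simp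
      ring
    exact e _

end G

open G

theorem t_G1 : S_G1 := by
  intro a b N
  have h1 : HasSum (tt a b N) (∑ j ∈ range ((a + b + 1) / 2), tt a b N j) := by
    apply hasSum_sum_of_ne_finset_zero
    intro j hj
    unfold tt
    rw [if_neg (by rwa [mem_range] at hj)]
  have h2 : ∑ j ∈ range ((a + b + 1) / 2), tt a b N j = ((FK a b N : ℚ) : ℝ) := by
    unfold FK
    push_cast
    rw [Finset.sum_div]
    refine Finset.sum_congr rfl fun j hj => ?_
    unfold tt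
    rw [if_pos (mem_range.mp hj)]
    unfold cd
    push_cast
    rfl
  rwa [h2] at h1

theorem t_g : S_g := by
  intro N j hN hj
  obtain ⟨n, rfl⟩ := hN
  have hjn : j ≤ n := by omega
  have hq : mj (2*n+1+2) j = (1 - (2*((2*n+1 : ℕ):ℚ)+3)*(6*(j:ℚ)+2)/
      ((3*((2*n+1 : ℕ):ℚ)+2)*(((2*n+1 : ℕ):ℚ)+3+2*j))) * mj (2*n+1) j := by
    have e1 : 2*n+1+2 = 2*(n+1)+1 := by ring
    rw [e1, mj_eq t_MJ (by omega : j ≤ n + 1), mj_eq t_MJ hjn, hf_prod n j hjn, M0_succ]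
    have hn0 : (0:ℚ) ≤ n := Nat.cast_nonneg n
    have hj0 : (0:ℚ) ≤ j := Nat.cast_nonneg j
    set Pr := ∏ i ∈ range j, hf n i
    push_cast
    have g1 : (2*(n:ℚ) + 1) ≠ 0 := by positivity
    have g2 : (2*(n:ℚ) + 4 + 2*j) ≠ 0 := by positivity
    have g3 : ((n:ℚ) + 5/6) ≠ 0 := by positivity
    have g4 : ((n:ℚ) + 2) ≠ 0 := by positivity
    have g5 : (3*(2*(n:ℚ)+1)+2) ≠ 0 := by positivity
    have g6 : ((2*(n:ℚ)+1)+3+2*j) ≠ 0 := by positivity
    field_simp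
    ring
  rw [hq]
  unfold gK
  push_cast
  ring

theorem t_G2 : S_G2 := by
  intro a b N ρ σ h
  obtain ⟨hρ, hσ, hρσ, ha, ha2, hb, hN, habN, hNt, hla, hlb⟩ := h
  choose n hn using hN
  have hN2 : ∀ i, N i = 2 * n i + 1 := hn
  have hab : ∀ i, a i + b i + 1 = 2 * ((a i + b i + 1) / 2) := fun i => by
    obtain ⟨x, hx⟩ := ha i
    obtain ⟨y, hy⟩ := hb i
    omega
  set n0 : ℕ → ℕ := fun i => (a i + b i + 1) / 2 with hn0
  have hab' : ∀ i, a i + b i + 1 = 2 * n0 i := hab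
  have hnn : ∀ i, n0 i ≤ n i := fun i => by
    have := habN i; have := hN2 i; have := hab' i; omega
  have hNr : ∀ i, ((N i : ℕ) : ℝ) = 2 * (n i : ℝ) + 1 := fun i => by
    rw [hN2 i]
    push_cast
    ring
  have hNt' : Tendsto (fun i => ((N i : ℕ) : ℝ)) atTop atTop :=
    tendsto_natCast_atTop_atTop.comp hNt
  have hNpos : ∀ i, (0:ℝ) < N i := fun i => by
    have : 0 < N i := by have := hN2 i; omega
    exact_mod_cast this
  set r : ℝ := (1 + (ρ + σ)) / 2 with hr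
  have hr1 : r < 1 := by rw [hr]; linarith
  have hr0 : 0 < r := by rw [hr]; linarith
  have ev : ∀ᶠ i in atTop, 2 * (n0 i : ℝ) - 1 ≤ r * (2 * n i - 1) := by
    have hcN : Tendsto (fun i => 2 / (N i : ℝ)) atTop (𝓝 0) :=
      Tendsto.div_atTop tendsto_const_nhds hNt'
    have g1 : Tendsto (fun i => ((a i : ℝ) / N i + (b i : ℝ) / N i) + 2 / (N i : ℝ)) atTop
        (𝓝 ((ρ+σ) + 0)) := (hla.add hlb).add hcN
    have g2 : (ρ+σ) + 0 < r := by rw [hr]; linarith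
    filter_upwards [g1.eventually (gt_mem_nhds g2)] with i q8
    rw [← add_div, ← add_div, div_lt_iff₀ (hNpos i)] at q8
    have h3 : (a i : ℝ) + b i + 1 = 2 * n0 i := by exact_mod_cast hab' i
    have h4 : (a i : ℝ) + b i + 2 = 2 * n0 i + 1 := by linarith
    rw [h4, hNr i] at q8
    nlinarith
  refine ⟨r, hr0, hr1, ?_⟩
  filter_upwards [ev] with i hi j
  by_cases hj : j < (a i + b i + 1) / 2
  · have hj2 : j ≤ n0 i := hj.le
    have h3 : (0:ℝ) ≤ (((dv (a i) * sv (b i)).coeff j : ℚ) : ℝ) := by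
      exact_mod_cast hcg _ _ _ (ha i)
    have h4 : (0:ℝ) ≤ ((mj (N i) j : ℚ) : ℝ) := by
      rw [hN2 i]
      exact_mod_cast mj_nonneg t_MJ (hj2.trans (hnn i))
    unfold tt
    rw [if_pos hj]
    push_cast
    refine ⟨by positivity, ?_⟩
    have h1 := mj_le t_MJ hj2 (hnn i) hi hr0.le hr1.le
    have h2 : (((dv (a i) * sv (b i)).coeff j * mj (2 * n0 i + 1) j : ℚ) : ℝ) ≤ 2 := by
      have h1 := t3_FKle (a i) (b i) (ha i) (ha2 i) (hb i)
      unfold FK at h1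
      have e1 : a i + b i + 2 = 2 * n0 i + 1 := by have := hab' i; omega
      rw [e1] at h1
      have h2 := Finset.single_le_sum (f := fun j => cd (a i) (b i) j * mj (2 * n0 i + 1) j)
        (s := range ((a i + b i + 1) / 2)) (fun l hl => mul_nonneg (hcg _ _ _ (ha i))
          (mj_nonneg t_MJ (by rw [mem_range] at hl; exact hl.le))) (mem_range.mpr hj)
      have h3 : (dv (a i) * sv (b i)).coeff j * mj (2 * n0 i + 1) j ≤ 2 := by
        have h2' : (dv (a i) * sv (b i)).coeff j * mj (2 * n0 i + 1) j ≤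
          ∑ j ∈ range ((a i + b i + 1) / 2), cd (a i) (b i) j * mj (2 * n0 i + 1) j := h2
        linarith
      exact_mod_cast h3
    rw [← hN2 i] at h1
    push_cast at h2
    have h5 : (((dv (a i) * sv (b i)).coeff j : ℚ) : ℝ) * ((mj (N i) j : ℚ) : ℝ) ≤ 2 * r^j := by
      calc _ ≤ (((dv (a i) * sv (b i)).coeff j : ℚ) : ℝ) * (r^j * ((mj (2 * n0 i + 1) j : ℚ) : ℝ)) :=
            mul_le_mul_of_nonneg_left h1 h3
        _ = r^j * ((((dv (a i) * sv (b i)).coeff j : ℚ) : ℝ) * ((mj (2 * n0 i + 1) j : ℚ) : ℝ)) := by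
            ring
        _ ≤ r^j * 2 := mul_le_mul_of_nonneg_left h2 (by positivity)
        _ = _ := by ring
    linarith
  · unfold tt
    rw [if_neg hj]
    exact ⟨le_rfl, by positivity⟩

end Pool.Agent.H966.N9
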