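import Pool.Agent.H966.N9.Stm

set_option autoImplicit false

/-!
# TASK FB of the local limit theorem for the exits: termwise derivative of the series in the second
variable (helper864 for helper966, after `N5/F1.lean` of helper190)
-/

namespace Pool.Agent.H966.N9

open Pool.Agent.NH38.Step (cardy)
open Pool.Agent.NH38.Fork (x1 x2 rf Bt)
open Pool.Agent.NH38.Fork.R4 (rf_pos Bt_pos)
open Pool.Agent.H965.K3 (ap3 S3_F4)
open Pool.Agent.H966.N3 (Gk)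
open Pool.Agent.H966.N5 (br1)
open Filter Topology Finset

namespace FB

/-- the term -/
noncomputable def Tm (K : ℝ) (cf : ℕ → ℕ → ℝ) (l l' : ℕ) (x y : ℝ) : ℝ :=
  (2*y)^((2:ℝ)/3) * K * cf l l' * (x^2)^l * (y^2)^l'

theorem Tm_nonneg {K : ℝ} (hK : 0 ≤ K) {cf : ℕ → ℕ → ℝ} (hcf : ∀ l l', 0 ≤ cf l l') (l l' : ℕ)
    {x y : ℝ} (hx : 0 ≤ x) (hy : 0 ≤ y) : 0 ≤ Tm K cf l l' x y := by
  unfold Tm
  have := hcf l l'
  positivity

theorem sq_pow_le {x x' s : ℝ} (l : ℕ) (hx : 0 ≤ x) (hs : 0 ≤ s) (hs1 : s ≤ 1)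
    (h : x ≤ s * x') : (x^2)^l ≤ s^l * (x'^2)^l := by
  rw [← mul_pow]
  refine pow_le_pow_left₀ (sq_nonneg x) ?_ l
  have h1 : x^2 ≤ (s * x')^2 := pow_le_pow_left₀ hx h 2
  have h2 : (s * x')^2 = s * (s * x'^2) := by ring
  have h3 : s * (s * x'^2) ≤ s * (1 * x'^2) :=
    mul_le_mul_of_nonneg_left (mul_le_mul_of_nonneg_right hs1 (sq_nonneg x')) hs
  calc x^2 ≤ s * (s * x'^2) := h2 ▸ h1
    _ ≤ s * (1 * x'^2) := h3
    _ = s * x'^2 := by ring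

theorem Tm_le {K : ℝ} (hK : 0 ≤ K) {cf : ℕ → ℕ → ℝ} (hcf : ∀ l l', 0 ≤ cf l l') (l l' : ℕ)
    {x y x' y' s : ℝ} (hx : 0 ≤ x) (hy : 0 ≤ y) (hs : 0 ≤ s) (hs1 : s ≤ 1) (hxx : x ≤ s * x')
    (hyy : y ≤ s * y') (hy' : 0 ≤ y') :
    Tm K cf l l' x y ≤ s^(l+l') * Tm K cf l l' x' y' := by
  unfold Tm
  have h0 := hcf l l'
  have h1 := sq_pow_le l hx hs hs1 hxx
  have h2 := sq_pow_le l' hy hs hs1 hyy
  have h3 : (2*y)^((2:ℝ)/3) ≤ (2*y')^((2:ℝ)/3) := by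
    refine Real.rpow_le_rpow (by positivity) ?_ (by norm_num)
    have : s * y' ≤ 1 * y' := mul_le_mul_of_nonneg_right hs1 hy'
    linarith
  calc (2*y)^((2:ℝ)/3) * K * cf l l' * (x^2)^l * (y^2)^l'
      ≤ (2*y')^((2:ℝ)/3) * K * cf l l' * (s^l * (x'^2)^l) * (s^l' * (y'^2)^l') := by gcongr
    _ = s^(l+l') * ((2*y')^((2:ℝ)/3) * K * cf l l' * (x'^2)^l * (y'^2)^l') := by
      rw [pow_add]; ring

theorem pow_aux (l : ℕ) {f : ℝ → ℝ} {f' t : ℝ} (hf : HasDerivAt f f' t) (h0 : f t ≠ 0) :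
    HasDerivAt (fun s => (f s ^ 2) ^ l) ((f t ^ 2) ^ l * (2 * (l:ℝ) * (f' / f t))) t := by
  have h1 := (hf.pow 2).pow l
  refine h1.congr_deriv ?_
  rcases l with _ | l
  · simp
  · simp only [Nat.add_sub_cancel, Pi.pow_apply]
    push_cast
    field_simp
    ring

theorem rpow_aux {f : ℝ → ℝ} {f' t : ℝ} (hf : HasDerivAt f f' t) (h0 : 0 < f t) :
    HasDerivAt (fun s => f s ^ ((2:ℝ)/3)) (f t ^ ((2:ℝ)/3) * ((2:ℝ)/3 * (f' / f t))) t := by
  have h1 := hf.rpow_const (p := (2:ℝ)/3) (Or.inl h0.ne')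
  refine h1.congr_deriv ?_
  rw [Real.rpow_sub_one h0.ne']
  field_simp

theorem Tm_deriv (K : ℝ) (cf : ℕ → ℕ → ℝ) (l l' : ℕ) {x y : ℝ → ℝ} {x' y' t : ℝ}
    (hx : HasDerivAt x x' t) (hy : HasDerivAt y y' t) (h0 : 0 < x t) (h1 : 0 < y t) :
    HasDerivAt (fun s => Tm K cf l l' (x s) (y s))
      (Tm K cf l l' (x t) (y t) * (2*(l:ℝ) * (x' / x t) + (2*(l':ℝ) + 2/3) * (y' / y t))) t := by
  unfold Tm
  have e1 : HasDerivAt (fun s => 2 * y s) (2 * y') t := hy.const_mul 2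
  have e2 := rpow_aux e1 (by positivity)
  have e3 := ((((e2.mul_const K).mul_const (cf l l')).mul (pow_aux l hx h0.ne')).mul
    (pow_aux l' hy h1.ne'))
  refine e3.congr_deriv ?_
  have : (2 * y') / (2 * y t) = y' / y t := by
    field_simp
  rw [this]
  simp only [Pi.mul_apply]
  ring

theorem y_deriv {α γ t : ℝ} (h : 0 < α + γ + t) :
    HasDerivAt (fun s : ℝ => s / (α + γ + s)) ((α + γ) / (α + γ + t)^2) t := by
  have h1 : HasDerivAt (fun s : ℝ => α + γ + s) 1 t := (hasDerivAt_id t).const_add (α + γ)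
  refine ((hasDerivAt_id t).div h1 h.ne').congr_deriv ?_
  simp only [id]
  congr 1
  ring

theorem x_deriv {α γ t : ℝ} (h : 0 < α + γ + t) :
    HasDerivAt (fun s : ℝ => α / (α + γ + s)) (-α / (α + γ + t)^2) t := by
  have h1 : HasDerivAt (fun s : ℝ => α + γ + s) 1 t := (hasDerivAt_id t).const_add (α + γ)
  refine ((hasDerivAt_const t α).div h1 h.ne').congr_deriv ?_
  congr 1
  ring

theorem Tm_deriv' (K : ℝ) (cf : ℕ → ℕ → ℝ) (l l' : ℕ) {α γ t : ℝ} (ht : 0 < t) (hγ : 0 < γ)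
    (hα : 0 < α) :
    HasDerivAt (fun s => Tm K cf l l' (α / (α + γ + s)) (s / (α + γ + s)))
      (Tm K cf l l' (α / (α + γ + t)) (t / (α + γ + t)) *
        br1 (2*(l':ℝ) + 2/3) (2*((l + l' : ℕ) : ℝ) + 2/3) (t / (α + γ + t)) / (α + γ + t)) t := by
  have hS : 0 < α + γ + t := by positivity
  have h := Tm_deriv K cf l l' (x_deriv (α := α) (γ := γ) hS) (y_deriv (α := α) (γ := γ) hS)
    (div_pos hα hS) (div_pos ht hS)
  refine h.congr_deriv ?_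
  rw [mul_div_assoc]
  congr 1
  unfold br1
  push_cast
  field_simp
  ring

theorem core {K : ℝ} (hK : 0 ≤ K) {cf : ℕ → ℕ → ℝ} (hcf : ∀ l l', 0 ≤ cf l l')
    {F : ℕ → ℝ → ℝ → ℝ} {Gc : ℝ → ℝ → ℝ}
    (hF : ∀ j x y, F j x y = ∑ p ∈ antidiagonal j, Tm K cf p.1 p.2 x y)
    (hsum : ∀ x y, 0 < x → 0 < y → x + y < 1 → HasSum (fun j => F j x y) (Gc x y))
    {α γ β : ℝ} (hα : 0 < α) (hγ : 0 < γ) (hβ : 0 < β) :
    HasDerivAt (fun t => Gc (α/(α+γ+t)) (t/(α+γ+t)))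
      ((∑' j : ℕ, ∑ p ∈ antidiagonal j, Tm K cf p.1 p.2 (α/(α+γ+β)) (β/(α+γ+β)) *
        br1 (2*(p.2:ℝ) + 2/3) (2*(j:ℝ) + 2/3) (β/(α+γ+β))) / (α+γ+β)) β := by
  have hle : ∀ (j : ℕ) (x y x' y' s : ℝ), 0 ≤ x → 0 ≤ y → 0 ≤ s → s ≤ 1 → x ≤ s * x' →
      y ≤ s * y' → 0 ≤ x' → 0 ≤ y' → F j x y ≤ s^j * F j x' y' := by
    intro j x y x' y' s h1 h2 h3 h4 h5 h6 h7 h8
    rw [hF, hF, Finset.mul_sum]
    refine Finset.sum_le_sum fun p hp => ?_
    have hp' : p.1 + p.2 = j := Finset.HasAntidiagonal.mem_antidiagonal.1 hp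
    have h9 := Tm_le hK hcf p.1 p.2 h1 h2 h3 h4 h5 h6 h8
    rw [hp'] at h9
    exact h9
  obtain ⟨ε, hε0, hε1, hε2⟩ : ∃ ε : ℝ, 0 < ε ∧ ε ≤ β/2 ∧ ε ≤ γ/4 :=
    ⟨min (β/2) (γ/4), by positivity, min_le_left _ _, min_le_right _ _⟩
  set D : ℝ := α + β + γ - ε with hD
  have hD0 : 0 < D := by rw [hD]; linarith
  set ρ1 : ℝ := α / D with hρ1
  set σ1 : ℝ := (β + ε) / D with hσ1
  have hρ0 : 0 < ρ1 := by positivity
  have hσ0 : 0 < σ1 := by positivity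
  have hsum1 : ρ1 + σ1 < 1 := by
    rw [hρ1, hσ1, ← add_div, div_lt_one hD0, hD]; linarith
  obtain ⟨r, hr1, hr2⟩ := exists_between hsum1
  have hr0 : 0 < r := by linarith
  set ρ' := ρ1 / r with hρ'
  set σ' := σ1 / r with hσ'
  have hρ'0 : 0 < ρ' := by positivity
  have hσ'0 : 0 < σ' := by positivity
  have hs' : ρ' + σ' < 1 := by
    rw [hρ', hσ', ← add_div, div_lt_one hr0]; exact hr1
  set U : Set ℝ := Set.Ioo (β - ε) (β + ε) with hU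
  have hS : ∀ t ∈ U, 0 < t ∧ D ≤ α + γ + t ∧ β/2 ≤ t ∧ t ≤ β + ε := by
    intro t ht
    rw [hU, Set.mem_Ioo] at ht
    refine ⟨by linarith [ht.1], by rw [hD]; linarith [ht.1], by linarith [ht.1], ht.2.le⟩
  have hβU : β ∈ U := by rw [hU, Set.mem_Ioo]; constructor <;> linarith
  have hFn : ∀ j x y, 0 ≤ x → 0 ≤ y → 0 ≤ F j x y := fun j x y hx hy => by
    rw [hF]; exact Finset.sum_nonneg fun p _ => Tm_nonneg hK hcf _ _ hx hy
  have hGs := hsum ρ' σ' hρ'0 hσ'0 hs'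
  have hFG : ∀ j, F j ρ' σ' ≤ Gc ρ' σ' := fun j =>
    le_hasSum hGs j fun i _ => hFn i _ _ hρ'0.le hσ'0.le
  have hG0 : 0 ≤ Gc ρ' σ' := (hFn 0 _ _ hρ'0.le hσ'0.le).trans (hFG 0)
  have hbd : ∀ j, ∀ t ∈ U, F j (α/(α+γ+t)) (t/(α+γ+t)) ≤ r^j * Gc ρ' σ' := by
    intro j t ht
    obtain ⟨ht0, ht1, -, ht3⟩ := hS t ht
    have hSt : 0 < α + γ + t := by linarith
    refine (hle j _ _ ρ' σ' r (by positivity) (by positivity) hr0.le hr2.le ?_ ?_ hρ'0.le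
      hσ'0.le).trans (mul_le_mul_of_nonneg_left (hFG j) (by positivity))
    · rw [hρ', mul_div_cancel₀ _ hr0.ne', hρ1]
      exact div_le_div₀ hα.le le_rfl hD0 ht1
    · rw [hσ', mul_div_cancel₀ _ hr0.ne', hσ1]
      exact div_le_div₀ (by linarith) ht3 hD0 ht1
  -- the derivatives
  set g' : ℕ → ℝ → ℝ := fun j t => ∑ p ∈ antidiagonal j, Tm K cf p.1 p.2 (α/(α+γ+t)) (t/(α+γ+t)) *
        br1 (2*(p.2:ℝ) + 2/3) (2*(j:ℝ) + 2/3) (t/(α+γ+t)) / (α+γ+t) with hg'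
  have hd : ∀ j, ∀ t ∈ U, HasDerivAt (fun s => F j (α/(α+γ+s)) (s/(α+γ+s))) (g' j t) t := by
    intro j t ht
    obtain ⟨ht0, -⟩ := hS t ht
    have h1 : (fun s => F j (α/(α+γ+s)) (s/(α+γ+s))) = fun s => ∑ p ∈ antidiagonal j,
        Tm K cf p.1 p.2 (α/(α+γ+s)) (s/(α+γ+s)) := by
      funext s; exact hF _ _ _
    rw [h1, hg']
    refine HasDerivAt.fun_sum fun p hp => ?_
    have hp' : p.1 + p.2 = j := Finset.HasAntidiagonal.mem_antidiagonal.1 hp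
    have := Tm_deriv' K cf p.1 p.2 ht0 hγ hα
    rw [hp'] at this
    exact this
  have hdb : ∀ j, ∀ t ∈ U, ‖g' j t‖ ≤ (8/β * Gc ρ' σ') * (((j:ℝ) + 1) * r^j) := by
    intro j t ht
    obtain ⟨ht0, ht1, ht2, ht3⟩ := hS t ht
    have hSt : 0 < α + γ + t := by linarith
    have hx : 0 < α/(α+γ+t) := by positivity
    have hy : 0 < t/(α+γ+t) := by positivity
    have h1 : ‖g' j t‖ ≤ F j (α/(α+γ+t)) (t/(α+γ+t)) * (8/β * ((j:ℝ)+1)) := by
      rw [hg', hF, Finset.sum_mul]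
      refine (norm_sum_le _ _).trans (Finset.sum_le_sum fun p hp => ?_)
      have hp' : p.1 + p.2 = j := Finset.HasAntidiagonal.mem_antidiagonal.1 hp
      have hpj : (p.2:ℝ) ≤ j := by exact_mod_cast (by omega : p.2 ≤ j)
      rw [mul_div_assoc, norm_mul, Real.norm_of_nonneg (Tm_nonneg hK hcf _ _ hx.le hy.le)]
      refine mul_le_mul_of_nonneg_left ?_ (Tm_nonneg hK hcf _ _ hx.le hy.le)
      rw [Real.norm_eq_abs]
      have e1 : br1 (2*(p.2:ℝ) + 2/3) (2*(j:ℝ) + 2/3) (t/(α+γ+t)) / (α+γ+t) =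
          (2*(p.2:ℝ) + 2/3) / t - (2*(j:ℝ) + 2/3) / (α+γ+t) := by
        unfold br1; field_simp
      rw [e1]
      have hp0 : (0:ℝ) ≤ p.2 := Nat.cast_nonneg _
      have hj0 : (0:ℝ) ≤ j := Nat.cast_nonneg _
      have i1 : (2*(p.2:ℝ) + 2/3) / t ≤ 2*((j:ℝ)+1) / (β/2) :=
        div_le_div₀ (by positivity) (by linarith) (by positivity) ht2
      have i2 : (2*(j:ℝ) + 2/3) / (α+γ+t) ≤ 2*((j:ℝ)+1) / (β/2) :=
        div_le_div₀ (by positivity) (by linarith) (by positivity) (by linarith)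
      have i3 : 0 ≤ (2*(p.2:ℝ) + 2/3) / t := by positivity
      have i4 : 0 ≤ (2*(j:ℝ) + 2/3) / (α+γ+t) := by positivity
      have i5 : 2*((j:ℝ)+1) / (β/2) ≤ 8/β * ((j:ℝ)+1) := by
        rw [div_div_eq_mul_div, div_mul_eq_mul_div]
        apply div_le_div_of_nonneg_right _ hβ.le
        nlinarith
      rw [abs_le]
      constructor <;> linarith
    refine h1.trans ((mul_le_mul_of_nonneg_right (hbd j t ht) (by positivity)).trans (le_of_eq ?_))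
    ring
  have hu : Summable (fun j : ℕ => (8/β * Gc ρ' σ') * (((j:ℝ) + 1) * r^j)) := by
    apply Summable.mul_left
    have hn : ‖r‖ < 1 := by rw [Real.norm_of_nonneg hr0.le]; exact hr2
    have a1 := (hasSum_coe_mul_geometric_of_norm_lt_one hn).summable
    have a2 := summable_geometric_of_norm_lt_one hn
    refine (a1.add a2).congr fun j => ?_
    ring
  have hsumU : ∀ t ∈ U, HasSum (fun j => F j (α/(α+γ+t)) (t/(α+γ+t)))
      (Gc (α/(α+γ+t)) (t/(α+γ+t))) := by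
    intro t ht
    obtain ⟨ht0, ht1, -, -⟩ := hS t ht
    have hSt : 0 < α + γ + t := by linarith
    refine hsum _ _ (by positivity) (by positivity) ?_
    rw [← add_div, div_lt_one hSt]
    linarith
  have hmain := hasDerivAt_tsum_of_isPreconnected hu isOpen_Ioo isPreconnected_Ioo hd hdb hβU
    (hsumU β hβU).summable hβU
  have e : ∑' j, g' j β = (∑' j : ℕ, ∑ p ∈ antidiagonal j,
      Tm K cf p.1 p.2 (α/(α+γ+β)) (β/(α+γ+β)) *
        br1 (2*(p.2:ℝ) + 2/3) (2*(j:ℝ) + 2/3) (β/(α+γ+β))) / (α+γ+β) := by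
    rw [← tsum_div_const]
    refine tsum_congr fun j => ?_
    rw [hg', Finset.sum_div]
  rw [← e]
  refine hmain.congr_of_eventuallyEq ?_
  filter_upwards [isOpen_Ioo.mem_nhds hβU] with t ht
  exact (hsumU t ht).tsum_eq.symm

/-- the coefficients of `TT` -/
noncomputable def cf (l l' : ℕ) : ℝ := rf (1/3) (l+l') * rf (2/3) (l+l') /
  (rf (1/3) l * (Nat.factorial l : ℝ) * (rf (4/3) l' * (Nat.factorial l' : ℝ)))

theorem cf_nonneg (l l' : ℕ) : 0 ≤ cf l l' := by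
  unfold cf
  have h1 := rf_pos (s := 1/3) (by norm_num) (l + l')
  have h2 := rf_pos (s := 2/3) (by norm_num) (l + l')
  have h3 := rf_pos (s := 1/3) (by norm_num) l
  have h4 := rf_pos (s := 4/3) (by norm_num) l'
  positivity

theorem TT_eq (l l' : ℕ) (x y : ℝ) : TT l l' x y = Tm (3 / (2*Bt)) cf l l' x y := rfl

end FB

theorem t_FB : S_FB := by
  intro hF4 hD1 α γ β hα hγ hβ
  have hB := Bt_pos
  have h := FB.core (K := 3 / (2*Bt)) (by positivity) (cf := FB.cf) FB.cf_nonneg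
    (F := fun j x y => (2*y)^((2:ℝ)/3) * (3 / Bt) * ap3 (x^2) (y^2) j / 2)
    (Gc := Gk) (fun j x y => hD1 j x y)
    (fun x y h1 h2 h3 => by
      have h4 := (hF4 x y h1 h2 h3).div_const 2
      have h5 : 2 * cardy ((1 - x2 (x^2) (y^2)) / (1 - x1 (x^2) (y^2))) / 2 = Gk x y := by
        unfold Gk
        ring
      rw [h5] at h4
      exact h4) hα hγ hβ
  exact h

end Pool.Agent.H966.N9
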