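import Pool.Agent.H966.N9.Stm
import Pool.Agent.H966.N5.Fin
import Pool.Agent.H965.K3.Main

set_option autoImplicit false

/-!
The local limit theorem for the exits: from the series to the exploration path (helper966).
-/

namespace Pool.Agent.H966.N9

open Pool.Agent.H988R2.Perc hiding X
open Pool.Agent.H965.K3 (FK S3_F4)
open Pool.Agent.H966.N3 (Gk)
open Pool.Agent.H966.EX (ExitLeft ExitBank ExitRight)
open Pool.Agent.H966.N5 (Wd)
open MeasureTheory Filter Topology Finset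

/-- the exact formula -/
theorem left_FK {a m b : ℕ} (ha : Odd a) (hm : Even m) (hm2 : 2 ≤ m) (hb : Even b)
    (hb2 : 2 ≤ b) : perc.real (ExitLeft a m b) = 1 - ((FK b a (b + a + m) : ℚ) : ℝ) := by
  have h0 : perc.real (ExitLeft a m b) =
      1 - Pool.Agent.H988R2.Perc.perc.real (Pool.Agent.H966.EX.FCrossU a m b) :=
    Pool.Agent.H966.EX.left_val ha.pos (by omega) (by omega)
  rw [h0]
  congr 1
  obtain ⟨l, hl⟩ := hm
  obtain ⟨k', rfl⟩ : ∃ k', m = 2*k'+2 := ⟨l - 1, by omega⟩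
  have e0 : 2*k'+2 = 2*(k'+1) := by ring
  have h1 := Pool.Agent.H965.K3.t3_Exact b k' a hb hb2 ha
  rw [e0] at h1 ⊢
  rw [Pool.Agent.H966.EX.mirror_eq]
  have h2 : b + a + 2 + 2*k' = b + a + 2*(k'+1) := by ring
  rw [h2] at h1
  exact h1

theorem right_val {a m b : ℕ} (ha : Odd a) (hm : Even m) (hm2 : 2 ≤ m) (hb : Even b)
    (hb2 : 2 ≤ b) : perc.real (ExitRight a m b) = ((FK b a (b + a + m) : ℚ) : ℝ) -
      perc.real (ExitBank a m b) := by
  have h1 := left_FK ha hm hm2 hb hb2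
  have h2 := Pool.Agent.H966.EX.sum_one ha.pos (show 1 ≤ m by omega) (show 1 ≤ b by omega)
  linarith

variable {α γ β : ℝ} {δ : ℕ → ℝ} {a m b : ℕ → ℕ}

/-- the sequences of the exact formula, from the index `n0` on -/
theorem seq (W : Wd α γ β δ a m b) : ∃ n0 : ℕ, (∀ n, 2 ≤ m (n + n0) ∧ 2 ≤ b (n + n0)) ∧
    Seq (fun n => b (n + n0)) (fun n => a (n + n0))
      (fun n => b (n + n0) + a (n + n0) + m (n + n0)) (β/(β+γ+α)) (α/(β+γ+α)) ∧
    Tendsto (fun n => δ (n + n0) * ((b (n + n0) + a (n + n0) + m (n + n0) : ℕ) : ℝ)) atTop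
      (𝓝 (β+γ+α)) := by
  obtain ⟨n0, hn0⟩ := eventually_atTop.1 W.ev
  have hl : ∀ n, 2 ≤ m (n + n0) ∧ 2 ≤ b (n + n0) := fun n => hn0 (n + n0) (Nat.le_add_left _ _)
  have sh : Tendsto (fun n => n + n0) atTop atTop := tendsto_add_atTop_nat n0
  have hα := W.hα
  have hγ := W.hγ
  have hβ := W.hβ
  have hS : 0 < β + γ + α := by positivity
  have h1 := W.la.comp sh
  have h2 := W.lm.comp sh
  have h3 := W.lb.comp sh
  have hN : Tendsto (fun n => δ (n + n0) * ((b (n + n0) + a (n + n0) + m (n + n0) : ℕ) : ℝ))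
      atTop (𝓝 (β+γ+α)) := by
    have h := (h3.add h1).add h2
    rw [show β + α + γ = β + γ + α by ring] at h
    refine h.congr fun n => ?_
    simp only [Function.comp_apply]
    push_cast
    ring
  refine ⟨n0, hl, ⟨by positivity, by positivity, ?_, fun n => W.eb _, fun n => (hl n).2,
    fun n => W.oa _, ?_, ?_, ?_, ?_, ?_⟩, hN⟩
  · rw [← add_div, div_lt_one hS]
    linarith
  · intro n
    obtain ⟨l, hl'⟩ := W.eb (n + n0)
    obtain ⟨l1, hl1⟩ := W.oa (n + n0)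
    obtain ⟨l2, hl2⟩ := W.em (n + n0)
    exact ⟨l + l1 + l2, by omega⟩
  · intro n
    have := (hl n).1
    show b (n + n0) + a (n + n0) < b (n + n0) + a (n + n0) + m (n + n0)
    omega
  · rw [← tendsto_natCast_atTop_iff (R := ℝ)]
    exact Pool.Agent.NH38.Fork.GF.lim_top (fun n => W.hδ (n + n0)) (W.hδ0.comp sh) hS hN
  · refine (h3.div hN hS.ne').congr fun n => ?_
    simp only [Pi.div_apply, Function.comp_apply]
    rw [mul_div_mul_left _ _ (W.hδ _).ne']
  · refine (h1.div hN hS.ne').congr fun n => ?_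
    simp only [Pi.div_apply, Function.comp_apply]
    rw [mul_div_mul_left _ _ (W.hδ _).ne']

/-- the series are the densities -/
theorem idA (h4 : S3_F4) (hD : S_D1) (hF : S_FA) (hK : S_KA) (α γ β : ℝ) (hα : 0 < α)
    (hγ : 0 < γ) (hβ : 0 < β) :
    HA (α/(α+γ+β)) (β/(α+γ+β)) / (α+γ+β) = kA α γ β :=
  (hF h4 hD α γ β hα hγ hβ).unique (hK α γ β hα hγ hβ)

theorem idB (h4 : S3_F4) (hD : S_D1) (hF : S_FB) (hK : S_KB) (α γ β : ℝ) (hα : 0 < α)
    (hγ : 0 < γ) (hβ : 0 < β) :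
    HB (α/(α+γ+β)) (β/(α+γ+β)) / (α+γ+β) = kB α γ β :=
  (hF h4 hD α γ β hα hγ hβ).unique (hK α γ β hα hγ hβ)

/-- the local limit theorem for the exit through the left line -/
theorem lltA (hL : S_LimA)
    (hid : ∀ α γ β : ℝ, 0 < α → 0 < γ → 0 < β →
      HA (α/(α+γ+β)) (β/(α+γ+β)) / (α+γ+β) = kA α γ β) (W : Wd α γ β δ a m b) :
    Tendsto (fun n => (perc.real (ExitLeft (a n) (m n) (b n + 2)) -
      perc.real (ExitLeft (a n) (m n) (b n))) / (2 * δ n)) atTop (𝓝 (-kA β γ α)) := by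
  obtain ⟨n0, hl, hs, hN⟩ := seq W
  have hS : 0 < β + γ + α := by have := W.hα; have := W.hγ; have := W.hβ; positivity
  have h1 := hL _ _ _ _ _ hs
  have h2 := (h1.div hN (by positivity)).neg
  rw [hid β γ α W.hβ W.hγ W.hα] at h2
  rw [← tendsto_add_atTop_iff_nat n0]
  refine h2.congr fun n => ?_
  obtain ⟨g1, g2⟩ := hl n
  have o := W.oa (n + n0)
  have e := W.em (n + n0)
  have eb := W.eb (n + n0)
  have eb2 : Even (b (n + n0) + 2) := by obtain ⟨l, h⟩ := eb; exact ⟨l + 1, by omega⟩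
  have f1 := left_FK o e g1 eb g2
  have f2 := left_FK o e g1 eb2 (by omega)
  rw [f1, f2]
  have k2 : b (n + n0) + 2 + a (n + n0) + m (n + n0) =
      b (n + n0) + a (n + n0) + m (n + n0) + 2 := by ring
  rw [k2]
  simp only [Pi.div_apply]
  have hd := (W.hδ (n + n0)).ne'
  have hNp : ((b (n + n0) + a (n + n0) + m (n + n0) : ℕ) : ℝ) ≠ 0 := by
    have : 0 < b (n + n0) + a (n + n0) + m (n + n0) := by omega
    exact_mod_cast this.ne'
  field_simp
  ring

/-- the local limit theorem for the exit through the right line -/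
theorem lltB (hL : S_LimB)
    (hid : ∀ α γ β : ℝ, 0 < α → 0 < γ → 0 < β →
      HB (α/(α+γ+β)) (β/(α+γ+β)) / (α+γ+β) = kB α γ β)
    (hh : Tendsto (fun n => (perc.real (ExitBank (a n + 2) (m n) (b n)) -
      perc.real (ExitBank (a n) (m n) (b n))) / (2 * δ n)) atTop
      (𝓝 (Pool.Agent.H966.N5.hh α γ β))) (W : Wd α γ β δ a m b) :
    Tendsto (fun n => (perc.real (ExitRight (a n + 2) (m n) (b n)) -
      perc.real (ExitRight (a n) (m n) (b n))) / (2 * δ n)) atTop
      (𝓝 (kB β γ α - Pool.Agent.H966.N5.hh α γ β)) := by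
  obtain ⟨n0, hl, hs, hN⟩ := seq W
  have hS : 0 < β + γ + α := by have := W.hα; have := W.hγ; have := W.hβ; positivity
  have h1 := hL _ _ _ _ _ hs
  have h2 := h1.div hN (by positivity)
  rw [hid β γ α W.hβ W.hγ W.hα] at h2
  rw [← tendsto_add_atTop_iff_nat n0] at hh ⊢
  refine (h2.sub hh).congr fun n => ?_
  obtain ⟨g1, g2⟩ := hl n
  have o := W.oa (n + n0)
  have e := W.em (n + n0)
  have eb := W.eb (n + n0)
  have o2 : Odd (a (n + n0) + 2) := by obtain ⟨l, h⟩ := o; exact ⟨l + 1, by omega⟩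
  have f1 := right_val o e g1 eb g2
  have f2 := right_val o2 e g1 eb g2
  rw [f1, f2]
  have k2 : b (n + n0) + (a (n + n0) + 2) + m (n + n0) =
      b (n + n0) + a (n + n0) + m (n + n0) + 2 := by ring
  rw [k2]
  simp only [Pi.div_apply]
  have hd := (W.hδ (n + n0)).ne'
  have hNp : ((b (n + n0) + a (n + n0) + m (n + n0) : ℕ) : ℝ) ≠ 0 := by
    have : 0 < b (n + n0) + a (n + n0) + m (n + n0) := by omega
    exact_mod_cast this.ne'
  field_simp
  ring

end Pool.Agent.H966.N9
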