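import Pool.Agent.H966.N9.Stm

/-!
TASK KA of project N9 (helper966): closed form of the derivative in the first variable (helper42;
adapted from helper71's N5/K.lean).
-/

set_option autoImplicit false

namespace Pool.Agent.H966.N9

open Pool.Agent.NH38.Step (cardy)
open Pool.Agent.NH38.Step.A2 (BB BB_pos cardy_deriv)
open Pool.Agent.NH38.Fork (x1 x2 rr)
open Pool.Agent.H966.N3 (Gk)
open Filter Topology

namespace KA

/-- the polynomial under the root -/
noncomputable def gg (γ β t : ℝ) : ℝ := (γ * (γ + 2*β)) * ((γ + 2*t) * (γ + 2*t + 2*β))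

/-- the rational part -/
noncomputable def qq (γ β t : ℝ) : ℝ := γ^2 + 2*β^2 + 2*γ*β + 2*t*(γ + β)

/-- the argument of `cardy` -/
noncomputable def cu (γ β t : ℝ) : ℝ :=
  (qq γ β t - Real.sqrt (gg γ β t)) / (qq γ β t + Real.sqrt (gg γ β t))

theorem gg_pos {γ β t : ℝ} (hγ : 0 < γ) (hβ : 0 < β) (ht : 0 < t) : 0 < gg γ β t := by
  unfold gg; positivity

theorem qq_pos {γ β t : ℝ} (hγ : 0 < γ) (hβ : 0 < β) (ht : 0 < t) : 0 < qq γ β t := by
  unfold qq; positivity

theorem qq_sq (γ β t : ℝ) : qq γ β t ^ 2 - gg γ β t = (2*β*(t+γ+β))^2 := by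
  unfold qq gg; ring

theorem Gk_eq {γ β t : ℝ} (hγ : 0 < γ) (hβ : 0 < β) (ht : 0 < t) :
    Gk (t/(t+γ+β)) (β/(t+γ+β)) = cardy (cu γ β t) := by
  have hS : 0 < t + γ + β := by positivity
  have hg := gg_pos hγ hβ ht
  have hp := qq_pos hγ hβ ht
  set R : ℝ := Real.sqrt (gg γ β t) with hR
  have hR0 : 0 < R := Real.sqrt_pos.2 hg
  have hR2 : R^2 = gg γ β t := Real.sq_sqrt hg.le
  set S : ℝ := t + γ + β with hSd
  have hrr : rr ((t/S)^2) ((β/S)^2) = R / S^2 := by
    unfold rr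
    rw [Real.sqrt_eq_iff_mul_self_eq_of_pos (by positivity)]
    have e : (1 + (t/S)^2 - (β/S)^2)^2 - 4 * (t/S)^2 = gg γ β t / S^4 := by
      unfold gg
      rw [hSd]
      field_simp
      ring
    rw [e, ← hR2]
    field_simp
  have hx1 : x1 ((t/S)^2) ((β/S)^2) = ((1 + (t/S)^2 - (β/S)^2) - R/S^2)/2 := by
    unfold x1; rw [hrr]
  have hx2 : x2 ((t/S)^2) ((β/S)^2) = ((1 + (t/S)^2 - (β/S)^2) + R/S^2)/2 := by
    unfold x2; rw [hrr]
  have hqS : 1 - (t/S)^2 + (β/S)^2 = qq γ β t / S^2 := by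
    unfold qq
    rw [hSd]
    field_simp
    ring
  have e1 : 1 - x2 ((t/S)^2) ((β/S)^2) = (qq γ β t - R) / (2 * S^2) := by
    rw [hx2]
    have h1 : (qq γ β t - R) / (2 * S^2) = (qq γ β t / S^2 - R / S^2) / 2 := by
      field_simp
    rw [h1, ← hqS]
    ring
  have e2 : 1 - x1 ((t/S)^2) ((β/S)^2) = (qq γ β t + R) / (2 * S^2) := by
    rw [hx1]
    have h1 : (qq γ β t + R) / (2 * S^2) = (qq γ β t / S^2 + R / S^2) / 2 := by
      field_simp
    rw [h1, ← hqS]
    ring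
  unfold Gk cu
  rw [e1, e2, ← hR]
  congr 1
  field_simp

theorem cu_pos {γ β t : ℝ} (hγ : 0 < γ) (hβ : 0 < β) (ht : 0 < t) :
    0 < qq γ β t - Real.sqrt (gg γ β t) := by
  have hp := qq_pos hγ hβ ht
  have h1 : Real.sqrt (gg γ β t) < qq γ β t := by
    rw [Real.sqrt_lt' hp]
    have h2 := qq_sq γ β t
    have h3 : 0 < (2*β*(t+γ+β))^2 := by positivity
    linarith
  linarith

/-- the derivative of `cu` -/
theorem cu_deriv {γ β t : ℝ} (hγ : 0 < γ) (hβ : 0 < β) (ht : 0 < t) :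
    HasDerivAt (cu γ β) (-(8 * (t+γ+β) * β^2 * (γ * (γ + 2*β)) / (Real.sqrt (gg γ β t) *
      (qq γ β t + Real.sqrt (gg γ β t))^2))) t := by
  have hg := gg_pos hγ hβ ht
  have hp := qq_pos hγ hβ ht
  have hR0 : 0 < Real.sqrt (gg γ β t) := Real.sqrt_pos.2 hg
  have hR2 : Real.sqrt (gg γ β t)^2 = gg γ β t := Real.sq_sqrt hg.le
  have hpd : HasDerivAt (qq γ β) (2*(γ + β)) t := by
    have h1 : HasDerivAt (fun s : ℝ => γ^2 + 2*β^2 + 2*γ*β + 2*s*(γ + β)) (2*1*(γ + β)) t :=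
      (((hasDerivAt_id t).const_mul 2).mul_const (γ + β)).const_add _
    have h2 : (2*1*(γ + β) : ℝ) = 2*(γ + β) := by ring
    rw [h2] at h1
    exact h1
  have hgd : HasDerivAt (gg γ β) ((γ * (γ + 2*β)) * (2 * (γ + 2*t + 2*β) + (γ + 2*t) * 2)) t := by
    have h0 : HasDerivAt (fun s : ℝ => γ + 2*s) 2 t := by
      have := ((hasDerivAt_id t).const_mul 2).const_add γ
      rwa [mul_one] at this
    exact (h0.mul (h0.add_const (2*β))).const_mul (γ * (γ + 2*β))
  have hsd := hgd.sqrt hg.ne'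
  have hne : qq γ β t + Real.sqrt (gg γ β t) ≠ 0 := by positivity
  have h := (hpd.sub hsd).div (hpd.add hsd) hne
  refine h.congr_deriv ?_
  have e : gg γ β t = (γ * (γ + 2*β)) * ((γ + 2*t) * (γ + 2*t + 2*β)) := rfl
  have e2 : qq γ β t = γ^2 + 2*β^2 + 2*γ*β + 2*t*(γ + β) := rfl
  have key : 2 * (2*(γ + β)) * Real.sqrt (gg γ β t)^2 -
      qq γ β t * ((γ * (γ + 2*β)) * (2 * (γ + 2*t + 2*β) + (γ + 2*t) * 2)) =
      -(8 * (t+γ+β) * β^2 * (γ * (γ + 2*β))) := by
    rw [hR2, e, e2]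
    ring
  simp only [Pi.sub_apply, Pi.add_apply]
  rw [← neg_div, ← key]
  generalize Real.sqrt (gg γ β t) = R at *
  generalize qq γ β t = P at *
  generalize (γ * (γ + 2*β)) * (2 * (γ + 2*t + 2*β) + (γ + 2*t) * 2) = Q at *
  have hR0' : R ≠ 0 := hR0.ne'
  field_simp
  ring

/-- the value of the derivative -/
theorem val {α γ β : ℝ} (hα : 0 < α) (hγ : 0 < γ) (hβ : 0 < β) :
    Pool.Agent.H757R2.CardyLimit.gd (cu γ β α) / BB * (8 * (α+γ+β) * β^2 * (γ * (γ + 2*β)) /
      (Real.sqrt (gg γ β α) * (qq γ β α + Real.sqrt (gg γ β α))^2)) =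
      2 / BB * β^((2:ℝ)/3) * (α + γ + β)^(-(1:ℝ)/3) *
        (γ * (γ + 2*β))^((1:ℝ)/6) * ((γ + 2*α) * (γ + 2*α + 2*β))^(-(5:ℝ)/6) := by
  have hg := gg_pos hγ hβ hα
  have hp := qq_pos hγ hβ hα
  have hc0 := cu_pos hγ hβ hα
  have hB := BB_pos
  have hps := qq_sq γ β α
  have hS : 0 < α + γ + β := by positivity
  set S : ℝ := α + γ + β with hSd
  set R : ℝ := Real.sqrt (gg γ β α) with hR
  have hR0 : 0 < R := Real.sqrt_pos.2 hg
  have hR2 : R^2 = gg γ β α := Real.sq_sqrt hg.le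
  set P : ℝ := qq γ β α with hP
  have hx : cu γ β α * (1 - cu γ β α) = 2 * R * (2*β*S)^2 / (P + R)^3 := by
    unfold cu
    rw [← hR, ← hP, ← hps, ← hR2]
    field_simp
    ring
  have a1 : 0 < γ + 2*β := by positivity
  have a2 : 0 < γ + 2*α := by positivity
  have a3 : 0 < γ + 2*α + 2*β := by positivity
  have hlogR : Real.log R = (Real.log γ + Real.log (γ + 2*β) + Real.log (γ + 2*α) +
      Real.log (γ + 2*α + 2*β)) / 2 := by
    rw [hR, Real.log_sqrt hg.le]
    unfold gg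
    rw [Real.log_mul (by positivity) (by positivity), Real.log_mul (by positivity) (by positivity),
      Real.log_mul (by positivity) (by positivity)]
    ring
  unfold Pool.Agent.H757R2.CardyLimit.gd
  rw [hx]
  have hPR : 0 < P + R := by positivity
  have hX : 0 < 2 * R * (2*β*S)^2 / (P + R)^3 := by positivity
  have hX' := Real.rpow_pos_of_pos hX (-(2/3))
  have b1 : 0 < S^(-(1:ℝ)/3) := Real.rpow_pos_of_pos hS _
  have b2 : 0 < β^((2:ℝ)/3) := Real.rpow_pos_of_pos hβ _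
  have b3 : 0 < (γ * (γ + 2*β))^((1:ℝ)/6) := Real.rpow_pos_of_pos (by positivity) _
  have b4 : 0 < ((γ + 2*α) * (γ + 2*α + 2*β))^(-(5:ℝ)/6) := Real.rpow_pos_of_pos (by positivity) _
  have b0 : 0 < 2 / BB := by positivity
  apply Real.log_injOn_pos
  · change (0:ℝ) < _
    positivity
  · change (0:ℝ) < _
    positivity
  rw [Real.log_mul (by positivity) (by positivity), Real.log_div hX'.ne' hB.ne',
    Real.log_rpow hX, Real.log_div (by positivity) (by positivity),
    Real.log_mul (by positivity) (by positivity), Real.log_mul (by norm_num) (by positivity),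
    Real.log_pow, Real.log_pow, Real.log_mul (by positivity) (by positivity),
    Real.log_mul (by norm_num) (by positivity)]
  rw [Real.log_div (by positivity) (by positivity), Real.log_mul (by positivity) (by positivity),
    Real.log_mul (by positivity) (by positivity), Real.log_mul (by norm_num) (by positivity),
    Real.log_pow, Real.log_mul (by positivity) (by positivity),
    Real.log_mul (by positivity) (by positivity), Real.log_pow]
  have h8 : Real.log (8:ℝ) = 3 * Real.log 2 := by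
    have h : (8:ℝ) = 2^3 := by norm_num
    rw [h, Real.log_pow]
    norm_num
  have r1 : Real.log (2 / BB * β^((2:ℝ)/3) * S^(-(1:ℝ)/3) *
        (γ * (γ + 2*β))^((1:ℝ)/6) * ((γ + 2*α) * (γ + 2*α + 2*β))^(-(5:ℝ)/6)) =
      (Real.log 2 - Real.log BB) + (2:ℝ)/3 * Real.log β + (-(1:ℝ)/3) * Real.log S +
        (1:ℝ)/6 * (Real.log γ + Real.log (γ + 2*β)) +
        (-(5:ℝ)/6) * (Real.log (γ + 2*α) + Real.log (γ + 2*α + 2*β)) := by
    rw [Real.log_mul (by positivity) b4.ne', Real.log_mul (by positivity) b3.ne',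
      Real.log_mul (by positivity) b1.ne', Real.log_mul b0.ne' b2.ne',
      Real.log_div (by norm_num) hB.ne', Real.log_rpow hβ, Real.log_rpow hS,
      Real.log_rpow (by positivity), Real.log_rpow (by positivity),
      Real.log_mul hγ.ne' a1.ne', Real.log_mul a2.ne' a3.ne']
  rw [r1, h8]
  push_cast
  linear_combination (-(5:ℝ)/3) * hlogR

end KA

open KA

/-- TASK KA -/
theorem t_KA : S_KA := by
  intro α γ β hα hγ hβ
  have hg := gg_pos hγ hβ hα
  have hp := qq_pos hγ hβ hα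
  have hc0 := cu_pos hγ hβ hα
  have hR0 : 0 < Real.sqrt (gg γ β α) := Real.sqrt_pos.2 hg
  have hd := cu_deriv hγ hβ hα
  have hχ0 : 0 < cu γ β α := div_pos hc0 (by positivity)
  have hχ1 : cu γ β α < 1 := by
    unfold cu
    rw [div_lt_one (by positivity)]
    linarith
  have h1 := (cardy_deriv hχ0 hχ1).comp α hd
  have h2 : (fun t => Gk (t/(t+γ+β)) (β/(t+γ+β))) =ᶠ[𝓝 α] cardy ∘ cu γ β := by
    filter_upwards [lt_mem_nhds hα] with t ht
    exact Gk_eq hγ hβ ht
  refine (h1.congr_of_eventuallyEq h2).congr_deriv ?_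
  rw [mul_neg, val hα hγ hβ]
  rfl

end Pool.Agent.H966.N9
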