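import Pool.Agent.H966.N9.Stm

/-!
TASK KB of project N9 (helper966): closed form of the derivative in the second variable (helper807).
-/

set_option autoImplicit false

namespace Pool.Agent.H966.N9

open Pool.Agent.NH38.Step (cardy)
open Pool.Agent.NH38.Step.A2 (BB BB_pos cardy_deriv)
open Pool.Agent.NH38.Fork (x1 x2 rr)
open Pool.Agent.H966.N3 (Gk)
open Filter Topology

namespace KB

/-- the polynomial under the root -/
noncomputable def gg (α γ t : ℝ) : ℝ := (γ * (γ + 2*α)) * ((γ + 2*t) * (γ + 2*α + 2*t))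

/-- the rational part -/
noncomputable def pp (α γ t : ℝ) : ℝ := γ^2 + 2*α*γ + 2*(γ + α)*t + 2*t^2

/-- the argument of `cardy` -/
noncomputable def ch (α γ t : ℝ) : ℝ :=
  (pp α γ t - Real.sqrt (gg α γ t)) / (pp α γ t + Real.sqrt (gg α γ t))

theorem gg_pos {α γ t : ℝ} (hα : 0 < α) (hγ : 0 < γ) (ht : 0 < t) : 0 < gg α γ t := by
  unfold gg; positivity

theorem pp_pos {α γ t : ℝ} (hα : 0 < α) (hγ : 0 < γ) (ht : 0 < t) : 0 < pp α γ t := by
  unfold pp; positivity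

theorem pp_sq (α γ t : ℝ) : pp α γ t ^ 2 - gg α γ t = (2*t*(α+γ+t))^2 := by
  unfold pp gg; ring

/-- the quotient is the argument of `cardy` in `Gk` -/
theorem Gk_eq {α γ t : ℝ} (hα : 0 < α) (hγ : 0 < γ) (ht : 0 < t) :
    Gk (α/(α+γ+t)) (t/(α+γ+t)) = cardy (ch α γ t) := by
  have hS : 0 < α + γ + t := by positivity
  have hg := gg_pos hα hγ ht
  have hp := pp_pos hα hγ ht
  set R : ℝ := Real.sqrt (gg α γ t) with hR
  have hR0 : 0 < R := Real.sqrt_pos.2 hg
  have hR2 : R^2 = gg α γ t := Real.sq_sqrt hg.le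
  set S : ℝ := α + γ + t with hSd
  have hrr : rr ((α/S)^2) ((t/S)^2) = R / S^2 := by
    unfold rr
    rw [Real.sqrt_eq_iff_mul_self_eq_of_pos (by positivity)]
    have e : (1 + (α/S)^2 - (t/S)^2)^2 - 4 * (α/S)^2 = gg α γ t / S^4 := by
      unfold gg
      rw [hSd]
      field_simp
      ring
    rw [e, ← hR2]
    field_simp
  have hpS : 1 - (α/S)^2 + (t/S)^2 = pp α γ t / S^2 := by
    unfold pp
    rw [hSd]
    field_simp
    ring
  have e1 : 1 - x1 ((α/S)^2) ((t/S)^2) = (pp α γ t + R) / (2 * S^2) := by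
    have h1 : (pp α γ t + R) / (2 * S^2) = (pp α γ t / S^2 + R / S^2) / 2 := by
      field_simp
    unfold x1
    rw [hrr, h1, ← hpS]
    ring
  have e2 : 1 - x2 ((α/S)^2) ((t/S)^2) = (pp α γ t - R) / (2 * S^2) := by
    have h1 : (pp α γ t - R) / (2 * S^2) = (pp α γ t / S^2 - R / S^2) / 2 := by
      field_simp
    unfold x2
    rw [hrr, h1, ← hpS]
    ring
  unfold Gk ch
  rw [e1, e2, ← hR]
  congr 1
  field_simp

theorem ch_pos {α γ t : ℝ} (hα : 0 < α) (hγ : 0 < γ) (ht : 0 < t) :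
    0 < pp α γ t - Real.sqrt (gg α γ t) := by
  have hp := pp_pos hα hγ ht
  have h1 : Real.sqrt (gg α γ t) < pp α γ t := by
    rw [Real.sqrt_lt' hp]
    have h2 := pp_sq α γ t
    have h3 : 0 < (2*t*(α+γ+t))^2 := by positivity
    linarith
  linarith

/-- the derivative of the quotient -/
theorem ch_deriv {α γ t : ℝ} (hα : 0 < α) (hγ : 0 < γ) (ht : 0 < t) :
    HasDerivAt (ch α γ) (8 * t * (α+γ+t) * (γ * (γ + 2*α)) * (α+γ+2*t) / (Real.sqrt (gg α γ t) *
      (pp α γ t + Real.sqrt (gg α γ t))^2)) t := by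
  have hg := gg_pos hα hγ ht
  have hp := pp_pos hα hγ ht
  have hR0 : 0 < Real.sqrt (gg α γ t) := Real.sqrt_pos.2 hg
  have hR2 : Real.sqrt (gg α γ t)^2 = gg α γ t := Real.sq_sqrt hg.le
  have hpd : HasDerivAt (pp α γ) (2*(γ+α) + 4*t) t := by
    have h1 : HasDerivAt (fun s : ℝ => γ^2 + 2*α*γ + 2*(γ + α)*s + 2*s^2)
        (0 + 2*(γ+α)*1 + 2*(((2:ℕ):ℝ)*t^(2-1)*1)) t := by
      refine HasDerivAt.add (HasDerivAt.add (hasDerivAt_const t (γ^2 + 2*α*γ)) ?_) ?_
      · exact (hasDerivAt_id t).const_mul (2*(γ+α))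
      · exact ((hasDerivAt_id t).pow 2).const_mul 2
    refine h1.congr_deriv ?_
    norm_num
    ring
  have hgd : HasDerivAt (gg α γ) ((γ * (γ + 2*α)) * (2 * (γ + 2*α + 2*t) + (γ + 2*t) * 2)) t := by
    have h0 : HasDerivAt (fun s : ℝ => γ + 2*s) 2 t := by
      have := ((hasDerivAt_id t).const_mul 2).const_add γ
      rwa [mul_one] at this
    have h0' : HasDerivAt (fun s : ℝ => γ + 2*α + 2*s) 2 t := by
      have := ((hasDerivAt_id t).const_mul 2).const_add (γ + 2*α)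
      rwa [mul_one] at this
    exact (h0.mul h0').const_mul (γ * (γ + 2*α))
  have hsd := hgd.sqrt hg.ne'
  have hne : pp α γ t + Real.sqrt (gg α γ t) ≠ 0 := by positivity
  have h := (hpd.sub hsd).div (hpd.add hsd) hne
  refine h.congr_deriv ?_
  have e : gg α γ t = (γ * (γ + 2*α)) * ((γ + 2*t) * (γ + 2*α + 2*t)) := rfl
  have e2 : pp α γ t = γ^2 + 2*α*γ + 2*(γ + α)*t + 2*t^2 := rfl
  have key : 2 * (2*(γ+α) + 4*t) * Real.sqrt (gg α γ t)^2 -
      pp α γ t * ((γ * (γ + 2*α)) * (2 * (γ + 2*α + 2*t) + (γ + 2*t) * 2)) =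
      8 * t * (α+γ+t) * (γ * (γ + 2*α)) * (α+γ+2*t) := by
    rw [hR2, e, e2]
    ring
  simp only [Pi.sub_apply, Pi.add_apply]
  rw [← key]
  generalize Real.sqrt (gg α γ t) = R at *
  generalize pp α γ t = P at *
  generalize (γ * (γ + 2*α)) * (2 * (γ + 2*α + 2*t) + (γ + 2*t) * 2) = Q at *
  have hR0' : R ≠ 0 := hR0.ne'
  field_simp
  ring

/-- the value of the derivative -/
theorem val {α γ β : ℝ} (hα : 0 < α) (hγ : 0 < γ) (hβ : 0 < β) :
    Pool.Agent.H757R2.CardyLimit.gd (ch α γ β) / BB * (8 * β * (α+γ+β) * (γ * (γ + 2*α)) *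
      (α+γ+2*β) / (Real.sqrt (gg α γ β) * (pp α γ β + Real.sqrt (gg α γ β))^2)) = kB α γ β := by
  have hg := gg_pos hα hγ hβ
  have hp := pp_pos hα hγ hβ
  have hc0 := ch_pos hα hγ hβ
  have hB := BB_pos
  have hps := pp_sq α γ β
  set R : ℝ := Real.sqrt (gg α γ β) with hR
  have hR0 : 0 < R := Real.sqrt_pos.2 hg
  have hR2 : R^2 = gg α γ β := Real.sq_sqrt hg.le
  set P : ℝ := pp α γ β with hP
  have hx : ch α γ β * (1 - ch α γ β) = 2 * R * (2*β*(α+γ+β))^2 / (P + R)^3 := by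
    unfold ch
    rw [← hR, ← hP, ← hps, ← hR2]
    field_simp
    ring
  have hlogR : Real.log R = (Real.log γ + Real.log (γ + 2*α) + Real.log (γ + 2*β) +
      Real.log (γ + 2*α + 2*β)) / 2 := by
    rw [hR, Real.log_sqrt hg.le]
    unfold gg
    rw [Real.log_mul (by positivity) (by positivity), Real.log_mul (by positivity) (by positivity),
      Real.log_mul (by positivity) (by positivity)]
    ring
  unfold Pool.Agent.H757R2.CardyLimit.gd
  rw [hx]
  unfold kB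
  have hPR : 0 < P + R := by positivity
  have hS : 0 < α + γ + β := by positivity
  have a0 : 0 < α + γ + 2*β := by positivity
  have a1 : 0 < γ + 2*α := by positivity
  have a2 : 0 < γ + 2*β := by positivity
  have a3 : 0 < γ + 2*α + 2*β := by positivity
  rw [Real.mul_rpow hγ.le a1.le, Real.mul_rpow a2.le a3.le]
  have hX : 0 < 2 * R * (2*β*(α+γ+β))^2 / (P + R)^3 := by positivity
  have hX' := Real.rpow_pos_of_pos hX (-(2/3))
  have b1 : 0 < β^(-(1:ℝ)/3) := Real.rpow_pos_of_pos hβ _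
  have b2 : 0 < (α + γ + β)^(-(1:ℝ)/3) := Real.rpow_pos_of_pos hS _
  have b3 : 0 < γ^((1:ℝ)/6) := Real.rpow_pos_of_pos hγ _
  have b4 : 0 < (γ + 2*α)^((1:ℝ)/6) := Real.rpow_pos_of_pos a1 _
  have b5 : 0 < (γ + 2*β)^(-(5:ℝ)/6) := Real.rpow_pos_of_pos a2 _
  have b6 : 0 < (γ + 2*α + 2*β)^(-(5:ℝ)/6) := Real.rpow_pos_of_pos a3 _
  have b0 : 0 < 2 / BB := by positivity
  have h8 : Real.log (8:ℝ) = 3 * Real.log 2 := by
    have h : (8:ℝ) = 2^3 := by norm_num
    rw [h, Real.log_pow]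
    norm_num
  have hPR2 : (0:ℝ) < (P + R)^2 := by positivity
  have hl0 : Real.log (2 * R * (2*β*(α+γ+β))^2 / (P + R)^3) = Real.log 2 + Real.log R +
      2*(Real.log 2 + Real.log β + Real.log (α+γ+β)) - 3 * Real.log (P + R) := by
    rw [Real.log_div (by positivity) (by positivity), Real.log_mul (by positivity) (by positivity),
      Real.log_mul (by norm_num) hR0.ne', Real.log_pow, Real.log_pow,
      Real.log_mul (by positivity) hS.ne', Real.log_mul (by norm_num) hβ.ne']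
    push_cast
    ring
  have hl1 : Real.log (8 * β * (α+γ+β) * (γ * (γ + 2*α)) * (α+γ+2*β) / (R * (P + R)^2)) =
      (3 * Real.log 2 + Real.log β + Real.log (α+γ+β) + (Real.log γ + Real.log (γ + 2*α)) +
        Real.log (α+γ+2*β)) - (Real.log R + 2 * Real.log (P + R)) := by
    rw [Real.log_div (by positivity) (by positivity), Real.log_mul (by positivity) a0.ne',
      Real.log_mul (by positivity) (mul_pos hγ a1).ne', Real.log_mul hγ.ne' a1.ne',
      Real.log_mul (by positivity) hS.ne', Real.log_mul (by norm_num) hβ.ne',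
      Real.log_mul hR0.ne' hPR2.ne', Real.log_pow, h8]
    push_cast
    ring
  have hl3 : Real.log (2 / BB * β^(-(1:ℝ)/3) * (α + γ + β)^(-(1:ℝ)/3) *
      (γ^((1:ℝ)/6) * (γ + 2*α)^((1:ℝ)/6)) *
        ((γ + 2*β)^(-(5:ℝ)/6) * (γ + 2*α + 2*β)^(-(5:ℝ)/6)) * (α + γ + 2*β)) =
      Real.log 2 - Real.log BB + (-(1:ℝ)/3) * Real.log β + (-(1:ℝ)/3) * Real.log (α+γ+β) +
        ((1:ℝ)/6 * Real.log γ + (1:ℝ)/6 * Real.log (γ + 2*α)) +
        ((-(5:ℝ)/6) * Real.log (γ + 2*β) + (-(5:ℝ)/6) * Real.log (γ + 2*α + 2*β)) +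
        Real.log (α+γ+2*β) := by
    rw [Real.log_mul (by positivity) a0.ne', Real.log_mul (by positivity) (mul_pos b5 b6).ne',
      Real.log_mul b5.ne' b6.ne', Real.log_mul (by positivity) (mul_pos b3 b4).ne',
      Real.log_mul b3.ne' b4.ne', Real.log_mul (by positivity) b2.ne', Real.log_mul b0.ne' b1.ne',
      Real.log_div (by norm_num) hB.ne', Real.log_rpow hβ, Real.log_rpow hS, Real.log_rpow hγ,
      Real.log_rpow a1, Real.log_rpow a2, Real.log_rpow a3]
  have c1 : 0 < (2 * R * (2*β*(α+γ+β))^2 / (P + R)^3) ^ (-(2/3) : ℝ) / BB := div_pos hX' hB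
  have c2 : 0 < 8 * β * (α+γ+β) * (γ * (γ + 2*α)) * (α+γ+2*β) / (R * (P + R)^2) := by
    positivity
  apply Real.log_injOn_pos
  · exact mul_pos c1 c2
  · change (0:ℝ) < _
    positivity
  rw [hl3, Real.log_mul c1.ne' c2.ne', Real.log_div hX'.ne' hB.ne', Real.log_rpow hX, hl0, hl1]
  linear_combination (-(5:ℝ)/3) * hlogR

end KB

open KB

/-- TASK KB -/
theorem t_KB : S_KB := by
  intro α γ β hα hγ hβ
  have hg := gg_pos hα hγ hβ
  have hp := pp_pos hα hγ hβ
  have hc0 := ch_pos hα hγ hβ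
  have hR0 : 0 < Real.sqrt (gg α γ β) := Real.sqrt_pos.2 hg
  have hd := ch_deriv hα hγ hβ
  have hχ0 : 0 < ch α γ β := div_pos hc0 (by positivity)
  have hχ1 : ch α γ β < 1 := by
    unfold ch
    rw [div_lt_one (by positivity)]
    linarith
  have h1 := (cardy_deriv hχ0 hχ1).comp β hd
  have h2 : (fun t => Gk (α/(α+γ+t)) (t/(α+γ+t))) =ᶠ[𝓝 β] cardy ∘ ch α γ := by
    filter_upwards [lt_mem_nhds hβ] with t ht
    exact Gk_eq hα hγ ht
  refine (h1.congr_of_eventuallyEq h2).congr_deriv ?_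
  exact val hα hγ hβ

end Pool.Agent.H966.N9
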