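import Pool.Agent.H966.N9.Stm2

set_option autoImplicit false

/-!
Limits of the two Cardy formulas (helper873 for helper966).
-/

namespace Pool.Agent.H966.N9

open Pool.Agent.H966.N3 (Gk)
open Pool.Agent.H966.N1 (Gc)
open Pool.Agent.NH38.Step (cardy)
open Pool.Agent.NH38.Step.A2 (cardy_cont cardy_zero cardy_one)
open Pool.Agent.NH38.Fork (x1 x2 rr)
open Filter Topology Set

namespace L1

lemma rr_cont : Continuous (fun p : ℝ × ℝ => rr p.1 p.2) := by
  unfold rr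
  fun_prop

lemma x1_cont : Continuous (fun p : ℝ × ℝ => x1 p.1 p.2) := by
  unfold x1
  exact ((by fun_prop : Continuous fun p : ℝ × ℝ => 1 + p.1 - p.2).sub rr_cont).div_const 2

lemma x2_cont : Continuous (fun p : ℝ × ℝ => x2 p.1 p.2) := by
  unfold x2
  exact ((by fun_prop : Continuous fun p : ℝ × ℝ => 1 + p.1 - p.2).add rr_cont).div_const 2

lemma basic {x y : ℝ} (hx : 0 < x) (hy : 0 < y) (h : x + y < 1) :
    0 < x1 (x^2) (y^2) ∧ x1 (x^2) (y^2) ≤ x2 (x^2) (y^2) ∧ x2 (x^2) (y^2) < 1 := by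
  have hr0 : 0 ≤ rr (x^2) (y^2) := Real.sqrt_nonneg _
  have hx2 : 0 < x^2 := by positivity
  have hy2 : 0 < y^2 := by positivity
  have hx1 : x^2 < 1 := by nlinarith
  have hy1 : y^2 < 1 := by nlinarith
  have h1 : rr (x^2) (y^2) < 1 + x^2 - y^2 := by
    unfold rr
    rw [Real.sqrt_lt' (by linarith)]
    linarith
  have h2 : rr (x^2) (y^2) < 1 - x^2 + y^2 := by
    unfold rr
    rw [Real.sqrt_lt' (by linarith)]
    nlinarith
  unfold x1 x2
  refine ⟨by linarith, by linarith, by linarith⟩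

lemma gk_mem {x y : ℝ} (hx : 0 < x) (hy : 0 < y) (h : x + y < 1) :
    (1 - x2 (x^2) (y^2)) / (1 - x1 (x^2) (y^2)) ∈ Icc (0:ℝ) 1 := by
  obtain ⟨h1, h2, h3⟩ := basic hx hy h
  exact ⟨div_nonneg (by linarith) (by linarith), (div_le_one (by linarith)).2 (by linarith)⟩

lemma gc_mem {x y : ℝ} (hx : 0 < x) (hy : 0 < y) (h : x + y < 1) :
    x1 (x^2) (y^2) * (1 - x2 (x^2) (y^2)) / (x2 (x^2) (y^2) * (1 - x1 (x^2) (y^2))) ∈
      Icc (0:ℝ) 1 := by
  obtain ⟨h1, h2, h3⟩ := basic hx hy h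
  have hd : 0 < x2 (x^2) (y^2) * (1 - x1 (x^2) (y^2)) :=
    mul_pos (by linarith) (by linarith)
  refine ⟨div_nonneg (mul_nonneg h1.le (by linarith)) hd.le, (div_le_one hd).2 ?_⟩
  nlinarith

lemma x1_lim {ι : Type} {l : Filter ι} {a b : ι → ℝ} {A B : ℝ} (ha : Tendsto a l (𝓝 A))
    (hb : Tendsto b l (𝓝 B)) : Tendsto (fun i => x1 (a i) (b i)) l (𝓝 (x1 A B)) := by
  have h := (x1_cont.tendsto (A, B)).comp (ha.prodMk_nhds hb)
  exact h

lemma x2_lim {ι : Type} {l : Filter ι} {a b : ι → ℝ} {A B : ℝ} (ha : Tendsto a l (𝓝 A))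
    (hb : Tendsto b l (𝓝 B)) : Tendsto (fun i => x2 (a i) (b i)) l (𝓝 (x2 A B)) := by
  have h := (x2_cont.tendsto (A, B)).comp (ha.prodMk_nhds hb)
  exact h

lemma cardy_lim {ι : Type} {l : Filter ι} {f : ι → ℝ} {c : ℝ} (h3 : Tendsto f l (𝓝 c))
    (hm : ∀ᶠ i in l, f i ∈ Icc (0:ℝ) 1) (hc01 : c ∈ Icc (0:ℝ) 1) :
    Tendsto (fun i => cardy (f i)) l (𝓝 (cardy c)) := by
  have h4 : Tendsto f l (𝓝[Icc (0:ℝ) 1] c) := tendsto_nhdsWithin_iff.2 ⟨h3, hm⟩
  have h5 : Tendsto cardy (𝓝[Icc (0:ℝ) 1] c) (𝓝 (cardy c)) := cardy_cont c hc01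
  exact h5.comp h4

/-- limit of `Gk` -/
lemma gk_lim {ι : Type} {l : Filter ι} {x y : ι → ℝ} {X Y c : ℝ} (hx : Tendsto x l (𝓝 X))
    (hy : Tendsto y l (𝓝 Y)) (hm : ∀ᶠ i in l, 0 < x i ∧ 0 < y i ∧ x i + y i < 1)
    (hd : 1 - x1 (X^2) (Y^2) ≠ 0) (hc : (1 - x2 (X^2) (Y^2)) / (1 - x1 (X^2) (Y^2)) = c)
    (hc01 : c ∈ Icc (0:ℝ) 1) : Tendsto (fun i => Gk (x i) (y i)) l (𝓝 (cardy c)) := by
  have h1 := x1_lim (hx.pow 2) (hy.pow 2)
  have h2 := x2_lim (hx.pow 2) (hy.pow 2)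
  have h3 := (tendsto_const_nhds (x := (1:ℝ)) (f := l)).sub h2 |>.div
    ((tendsto_const_nhds (x := (1:ℝ)) (f := l)).sub h1) hd
  rw [hc] at h3
  unfold Gk
  refine cardy_lim h3 ?_ hc01
  filter_upwards [hm] with i hi
  exact gk_mem hi.1 hi.2.1 hi.2.2

/-- limit of `Gc` -/
lemma gc_lim {ι : Type} {l : Filter ι} {x y : ι → ℝ} {X Y c : ℝ} (hx : Tendsto x l (𝓝 X))
    (hy : Tendsto y l (𝓝 Y)) (hm : ∀ᶠ i in l, 0 < x i ∧ 0 < y i ∧ x i + y i < 1)
    (hd : x2 (X^2) (Y^2) * (1 - x1 (X^2) (Y^2)) ≠ 0)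
    (hc : x1 (X^2) (Y^2) * (1 - x2 (X^2) (Y^2)) / (x2 (X^2) (Y^2) * (1 - x1 (X^2) (Y^2))) = c)
    (hc01 : c ∈ Icc (0:ℝ) 1) : Tendsto (fun i => Gc (x i) (y i)) l (𝓝 (cardy c)) := by
  have h1 := x1_lim (hx.pow 2) (hy.pow 2)
  have h2 := x2_lim (hx.pow 2) (hy.pow 2)
  have h3 := (h1.mul ((tendsto_const_nhds (x := (1:ℝ)) (f := l)).sub h2)).div
    (h2.mul ((tendsto_const_nhds (x := (1:ℝ)) (f := l)).sub h1)) hd
  rw [hc] at h3
  unfold Gc
  refine cardy_lim h3 ?_ hc01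
  filter_upwards [hm] with i hi
  exact gc_mem hi.1 hi.2.1 hi.2.2

lemma rr_left {u : ℝ} (hu : u^2 ≤ 1) : rr (u^2) 0 = 1 - u^2 := by
  unfold rr
  rw [show (1 + u^2 - 0)^2 - 4*u^2 = (1 - u^2)^2 by ring]
  exact Real.sqrt_sq (by linarith)

lemma rr_right {u : ℝ} (hu : u^2 ≤ 1) : rr 0 (u^2) = 1 - u^2 := by
  unfold rr
  rw [show (1 + 0 - u^2)^2 - 4*(0:ℝ) = (1 - u^2)^2 by ring]
  exact Real.sqrt_sq (by linarith)

end L1

theorem t_L1 : S_L1 := by
  intro γ β hγ hβ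
  obtain ⟨u, hu⟩ : ∃ u : ℝ, u = β / (β + γ) := ⟨_, rfl⟩
  have hs : 0 < β + γ := by linarith
  have hu0 : 0 < u := by rw [hu]; positivity
  have hu1 : u < 1 := by rw [hu, div_lt_one hs]; linarith
  have hu2 : u^2 < 1 := by nlinarith
  have ht : Tendsto (fun t : ℝ => t) (𝓝[>] 0) (𝓝 0) := tendsto_id.mono_left nhdsWithin_le_nhds
  have hS : Tendsto (fun t : ℝ => β + γ + t) (𝓝[>] 0) (𝓝 (β + γ)) := by
    simpa using (tendsto_const_nhds (x := β + γ)).add ht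
  have hS' : Tendsto (fun t : ℝ => t + γ + β) (𝓝[>] 0) (𝓝 (β + γ)) :=
    hS.congr fun t => by ring
  have hx : Tendsto (fun t : ℝ => β / (β + γ + t)) (𝓝[>] 0) (𝓝 u) := by
    rw [hu]
    exact tendsto_const_nhds.div hS hs.ne'
  have hy : Tendsto (fun t : ℝ => t / (β + γ + t)) (𝓝[>] 0) (𝓝 0) := by
    have := ht.div hS hs.ne'
    rwa [zero_div] at this
  have hx' : Tendsto (fun t : ℝ => t / (t + γ + β)) (𝓝[>] 0) (𝓝 0) := by
    have := ht.div hS' hs.ne'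
    rwa [zero_div] at this
  have hy' : Tendsto (fun t : ℝ => β / (t + γ + β)) (𝓝[>] 0) (𝓝 u) := by
    rw [hu]
    exact tendsto_const_nhds.div hS' hs.ne'
  have hpos : ∀ᶠ t : ℝ in 𝓝[>] 0, 0 < t := eventually_mem_nhdsWithin
  have h1 := L1.gk_lim hx hy (c := 0) (hpos.mono fun t ht => by
      have hd : 0 < β + γ + t := by linarith
      refine ⟨by positivity, by positivity, ?_⟩
      rw [← add_div, div_lt_one hd]
      linarith)
    (by
      rw [zero_pow two_ne_zero]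
      unfold x1
      rw [L1.rr_left hu2.le]
      intro h
      nlinarith)
    (by
      rw [zero_pow two_ne_zero]
      unfold x2
      rw [L1.rr_left hu2.le]
      have : 1 - (1 + u^2 - 0 + (1 - u^2)) / 2 = 0 := by ring
      rw [this, zero_div]) ⟨le_rfl, zero_le_one⟩
  have h2 := L1.gc_lim hx' hy' (c := 0) (hpos.mono fun t ht => by
      have hd : 0 < t + γ + β := by linarith
      refine ⟨by positivity, by positivity, ?_⟩
      rw [← add_div, div_lt_one hd]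
      linarith)
    (by
      rw [zero_pow two_ne_zero]
      unfold x1 x2
      rw [L1.rr_right hu2.le]
      have e1 : (1 + 0 - u^2 + (1 - u^2)) / 2 = 1 - u^2 := by ring
      have e2 : 1 - (1 + 0 - u^2 - (1 - u^2)) / 2 = 1 := by ring
      rw [e1, e2, mul_one]
      intro h
      nlinarith)
    (by
      rw [zero_pow two_ne_zero]
      unfold x1
      rw [L1.rr_right hu2.le]
      have e2 : (1 + 0 - u^2 - (1 - u^2)) / 2 = 0 := by ring
      rw [e2, zero_mul, zero_div]) ⟨le_rfl, zero_le_one⟩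
  have h3 := h1.sub h2
  rw [sub_self] at h3
  exact h3

theorem t_L2 : S_L2 := by
  intro γ β hγ hβ
  have hs : 0 < β + γ := by linarith
  have ht : Tendsto (fun t : ℝ => β + γ + t) atTop atTop := tendsto_atTop_add_const_left _ _ tendsto_id
  have hx : Tendsto (fun t : ℝ => β / (β + γ + t)) atTop (𝓝 0) := ht.const_div_atTop β
  have hy : Tendsto (fun t : ℝ => t / (β + γ + t)) atTop (𝓝 1) := by
    have h1 : Tendsto (fun t : ℝ => 1 - (β + γ) / (β + γ + t)) atTop (𝓝 (1 - 0)) :=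
      tendsto_const_nhds.sub (ht.const_div_atTop (β + γ))
    rw [sub_zero] at h1
    refine h1.congr' ?_
    filter_upwards [eventually_gt_atTop 0] with t ht
    have hd : β + γ + t ≠ 0 := by linarith
    field_simp
    ring
  have h1 := L1.gk_lim hx hy (c := 1) ((eventually_gt_atTop 0).mono fun t ht => by
      have hd : 0 < β + γ + t := by linarith
      refine ⟨by positivity, by positivity, ?_⟩
      rw [← add_div, div_lt_one hd]
      linarith)
    (by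
      rw [zero_pow two_ne_zero]
      unfold x1
      rw [L1.rr_right (by norm_num)]
      norm_num)
    (by
      rw [zero_pow two_ne_zero]
      unfold x1 x2
      rw [L1.rr_right (by norm_num)]
      norm_num) ⟨zero_le_one, le_rfl⟩
  have h3 := (tendsto_const_nhds (x := (1:ℝ))).sub h1
  rw [cardy_one, sub_self] at h3
  exact h3

end Pool.Agent.H966.N9
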