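import Pool.Agent.H966.N9.Stm2

set_option autoImplicit false

/-!
Task N9-L3 (helper116): the limit of the difference of the two Cardy formulas at infinity.
-/

namespace Pool.Agent.H966.N9

open Pool.Agent.H966.N3 (Gk)
open Pool.Agent.H966.N1 (Gc)
open Pool.Agent.NH38.Step (cardy)
open Pool.Agent.NH38.Fork (x1 x2 rr)
open Filter Topology Set

namespace L3

theorem facts {a b : ℝ} (ha : 0 < a) (hb : 0 < b) (hab : a + b < 1) :
    0 < x1 (a^2) (b^2) ∧ x1 (a^2) (b^2) < x2 (a^2) (b^2) ∧ x2 (a^2) (b^2) < 1 := by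
  have h0 : 0 < (1 + a^2 - b^2)^2 - 4*a^2 := by
    have e : (1 + a^2 - b^2)^2 - 4*a^2 = ((1-a-b)*(1-a+b))*((1+a-b)*(1+a+b)) := by ring
    rw [e]
    have h1 : 0 < 1-a-b := by linarith
    have h2 : 0 < 1-a+b := by linarith
    have h3 : 0 < 1+a-b := by linarith
    have h4 : 0 < 1+a+b := by linarith
    positivity
  have hr : 0 < rr (a^2) (b^2) := Real.sqrt_pos.mpr h0
  have hs : rr (a^2) (b^2) ^ 2 = (1 + a^2 - b^2)^2 - 4*a^2 := Real.sq_sqrt h0.le
  have hb1 : b < 1 := by linarith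
  have ha1 : a < 1 := by linarith
  have p1 : 0 < 1 + a^2 - b^2 := by nlinarith
  have p2 : 0 < 1 - a^2 + b^2 := by nlinarith
  have q1 : rr (a^2) (b^2) < 1 + a^2 - b^2 := by
    refine lt_of_pow_lt_pow_left₀ 2 p1.le ?_
    rw [hs]; nlinarith [pow_pos ha 2]
  have q2 : rr (a^2) (b^2) < 1 - a^2 + b^2 := by
    refine lt_of_pow_lt_pow_left₀ 2 p2.le ?_
    rw [hs]; nlinarith [pow_pos hb 2]
  unfold x1 x2
  refine ⟨by linarith, by linarith, by linarith⟩

theorem swap1 (A B : ℝ) : x1 B A = 1 - x2 A B := by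
  have h : rr B A = rr A B := by
    unfold rr
    congr 1
    ring
  unfold x1 x2
  rw [h]
  ring

theorem swap2 (A B : ℝ) : x2 B A = 1 - x1 A B := by
  have := swap1 B A
  linarith

end L3

open L3 in
theorem t_L3 : S_L3 := by
  intro α γ hα hγ
  have hU := isCompact_Icc.uniformContinuousOn_of_continuous Pool.Agent.NH38.Step.A2.cardy_cont
  rw [Metric.uniformContinuousOn_iff] at hU
  have lS : Tendsto (fun t : ℝ => α+γ+t) atTop atTop :=
    tendsto_atTop_add_const_left _ _ tendsto_id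
  have la : Tendsto (fun t : ℝ => α/(α+γ+t)) atTop (𝓝 0) :=
    tendsto_const_nhds.div_atTop lS
  have lb : Tendsto (fun t : ℝ => t/(α+γ+t)) atTop (𝓝 1) := by
    have e : ∀ᶠ t : ℝ in atTop, 1 - (α+γ)/(α+γ+t) = t/(α+γ+t) := by
      filter_upwards [eventually_gt_atTop 0] with t ht
      have : α+γ+t ≠ 0 := by positivity
      field_simp
      ring
    have h := (tendsto_const_nhds (x := (1:ℝ)) (f := (atTop : Filter ℝ))).sub
      (Tendsto.div_atTop (tendsto_const_nhds (x := α+γ)) lS)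
    rw [sub_zero] at h
    exact h.congr' e
  have lA : Tendsto (fun t : ℝ => (α/(α+γ+t))^2) atTop (𝓝 0) := by
    simpa using la.pow 2
  have lB : Tendsto (fun t : ℝ => (t/(α+γ+t))^2) atTop (𝓝 1) := by
    simpa using lb.pow 2
  have lp : Tendsto (fun t : ℝ => 1 + (α/(α+γ+t))^2 - (t/(α+γ+t))^2) atTop (𝓝 0) := by
    simpa using ((tendsto_const_nhds (x := (1:ℝ))).add lA).sub lB
  have lr : Tendsto (fun t : ℝ => rr ((α/(α+γ+t))^2) ((t/(α+γ+t))^2)) atTop (𝓝 0) := by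
    unfold rr
    simpa using ((lp.pow 2).sub (lA.const_mul 4)).sqrt
  have l1 : Tendsto (fun t : ℝ => x1 ((α/(α+γ+t))^2) ((t/(α+γ+t))^2)) atTop (𝓝 0) := by
    unfold x1
    simpa using (lp.sub lr).div_const 2
  have l2 : Tendsto (fun t : ℝ => x2 ((α/(α+γ+t))^2) ((t/(α+γ+t))^2)) atTop (𝓝 0) := by
    unfold x2
    simpa using (lp.add lr).div_const 2
  have lv : Tendsto (fun t : ℝ => (1 - x2 ((α/(α+γ+t))^2) ((t/(α+γ+t))^2)) /
      (1 - x1 ((α/(α+γ+t))^2) ((t/(α+γ+t))^2))) atTop (𝓝 1) := by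
    have h := ((tendsto_const_nhds (x := (1:ℝ))).sub l2).div
      ((tendsto_const_nhds (x := (1:ℝ))).sub l1) (by norm_num)
    have e : ((1:ℝ) - 0) / (1 - 0) = 1 := by norm_num
    rw [e] at h
    exact h
  rw [Metric.tendsto_nhds]
  intro ε hε
  obtain ⟨δ, hδ, h⟩ := hU ε hε
  filter_upwards [eventually_gt_atTop 0, (Metric.tendsto_nhds.mp lv) δ hδ] with t ht hv
  have hS : 0 < α+γ+t := by positivity
  have fa : 0 < α/(α+γ+t) := by positivity
  have fb : 0 < t/(α+γ+t) := by positivity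
  have fab : α/(α+γ+t) + t/(α+γ+t) < 1 := by
    rw [← add_div, div_lt_one hS]; linarith
  obtain ⟨k1, k2, k3⟩ := facts fa fb fab
  have eG : Rgt α γ t = cardy (x1 ((α/(α+γ+t))^2) ((t/(α+γ+t))^2) /
      x2 ((α/(α+γ+t))^2) ((t/(α+γ+t))^2)) -
      cardy (x1 ((α/(α+γ+t))^2) ((t/(α+γ+t))^2) * (1 - x2 ((α/(α+γ+t))^2) ((t/(α+γ+t))^2)) /
        (x2 ((α/(α+γ+t))^2) ((t/(α+γ+t))^2) * (1 - x1 ((α/(α+γ+t))^2) ((t/(α+γ+t))^2)))) := by
    unfold Rgt Gk Gc
    rw [show t + γ + α = α + γ + t by ring, swap2 ((α/(α+γ+t))^2), swap1 ((α/(α+γ+t))^2),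
      sub_sub_cancel, sub_sub_cancel]
  rw [eG]
  generalize x1 ((α/(α+γ+t))^2) ((t/(α+γ+t))^2) = y at *
  generalize x2 ((α/(α+γ+t))^2) ((t/(α+γ+t))^2) = z at *
  have hz : 0 < z := k1.trans k2
  have hy1 : 0 < 1 - y := by linarith
  have hz1 : 0 < 1 - z := by linarith
  have u0 : 0 < y/z := by positivity
  have u1 : y/z ≤ 1 := by rw [div_le_one hz]; exact k2.le
  have v0 : 0 < (1-z)/(1-y) := by positivity
  have v1 : (1-z)/(1-y) ≤ 1 := by rw [div_le_one hy1]; linarith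
  have e2 : y * (1-z)/(z*(1-y)) = y/z * ((1-z)/(1-y)) := by
    field_simp
  rw [e2, Real.dist_eq, sub_zero, ← Real.dist_eq]
  refine h _ ⟨u0.le, u1⟩ _ ⟨by positivity, ?_⟩ ?_
  · calc y/z * ((1-z)/(1-y)) ≤ 1 * 1 := mul_le_mul u1 v1 v0.le (by norm_num)
      _ = 1 := by norm_num
  · rw [Real.dist_eq] at hv ⊢
    rw [abs_sub_comm] at hv
    have e3 : y/z - y/z * ((1-z)/(1-y)) = y/z * (1 - (1-z)/(1-y)) := by ring
    rw [e3, abs_mul, abs_of_pos u0]
    calc y/z * |1 - (1-z)/(1-y)| ≤ 1 * |1 - (1-z)/(1-y)| :=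
          mul_le_mul_of_nonneg_right u1 (abs_nonneg _)
      _ < δ := by rw [one_mul]; exact hv

end Pool.Agent.H966.N9
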