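import Pool.Agent.H966.N5.Stm

/-!
The local limit theorem for the exits of the exploration path (helper966): statements of the
tasks (nothing is proved here). Analogue of `H966.N5` with `FK` (`dv`, `sv`, `mj`) in place of `FT`
(`sv`, `sv`, `nj`).
-/

set_option autoImplicit false

namespace Pool.Agent.H966.N9

open Pool.Agent.NH38.Step (cardy)
open Pool.Agent.NH38.Step.A2 (BB)
open Pool.Agent.NH38.Fork (x1 x2 rr rf cK cR sv kap Bt mj S_sE S_KE)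
open Pool.Agent.H965.K3 (dv FK cd ap3 S3_F4)
open Pool.Agent.H966.N3 (S_dE Gk)
open Pool.Agent.H966.N5 (xi S_xi B1 br1)
open Filter Topology Finset

/-! ## TASK A: ratios of coefficients -/

/-- relative difference of the coefficients of `dv (n+2)` and `dv n` -/
noncomputable def ze (n l : ℕ) : ℝ :=
  (((dv (n+2)).coeff l : ℚ) : ℝ) / (((dv n).coeff l : ℚ) : ℝ) - 1

def S_ze : Prop := ∃ (k : ℕ) (C : ℝ) (n0 : ℕ), ∀ n l : ℕ, Even n → n0 ≤ n → (l+1)^k ≤ n →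
  0 < (((dv n).coeff l : ℚ) : ℝ) ∧
  |(n:ℝ)/2 * ze n l - 2*(l:ℝ)| ≤ C * ((l:ℝ)+1)^k * (n:ℝ)^(-(2:ℝ)/3)

/-- TASK A -/
def S_A : Prop := S_sE → S_dE → S_KE → S_ze

/-! ## TASK G: the weights, geometric bounds -/

noncomputable def gK (N j : ℕ) : ℝ := (2*(N:ℝ)+3)*(6*(j:ℝ)+2)/((3*(N:ℝ)+2)*((N:ℝ)+3+2*j))

def S_g : Prop := ∀ N j : ℕ, Odd N → 2*j + 1 ≤ N →
  ((mj (N+2) j : ℚ) : ℝ) = (1 - gK N j) * ((mj N j : ℚ) : ℝ)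

/-- sequences of widths: `a` (even), `b` (odd) = widths of the arms, `N` = total width (odd) -/
structure Seq (a b N : ℕ → ℕ) (ρ σ : ℝ) : Prop where
  hρ : 0 < ρ
  hσ : 0 < σ
  hρσ : ρ + σ < 1
  ha : ∀ i, Even (a i)
  ha2 : ∀ i, 2 ≤ a i
  hb : ∀ i, Odd (b i)
  hN : ∀ i, Odd (N i)
  hab : ∀ i, a i + b i < N i
  hNt : Tendsto N atTop atTop
  la : Tendsto (fun i => (a i : ℝ) / N i) atTop (𝓝 ρ)
  lb : Tendsto (fun i => (b i : ℝ) / N i) atTop (𝓝 σ)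

/-- the terms of the crossing probability -/
noncomputable def tt (a b N j : ℕ) : ℝ := if j < (a+b+1)/2 then
  (((dv a * sv b).coeff j * mj N j : ℚ) : ℝ) / 2 else 0

def S_G1 : Prop := ∀ a b N : ℕ, HasSum (tt a b N) ((FK a b N : ℚ) : ℝ)

def S_G2 : Prop := ∀ (a b N : ℕ → ℕ) (ρ σ : ℝ), Seq a b N ρ σ → ∃ r : ℝ, 0 < r ∧ r < 1 ∧
  ∀ᶠ i in atTop, ∀ j, 0 ≤ tt (a i) (b i) (N i) j ∧ tt (a i) (b i) (N i) j ≤ r^j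

/-! ## TASK C: the brackets -/

/-- TASK C, part 1: the limits -/
def S_CA : Prop := S_ze → ∀ (a b N : ℕ → ℕ) (ρ σ : ℝ), Seq a b N ρ σ → ∀ l l' : ℕ,
  Tendsto (fun i => (N i : ℝ)/2 * B1 (ze (a i) l) (gK (N i) (l+l'))) atTop
    (𝓝 (br1 (2*(l:ℝ)) (2*((l+l' : ℕ) : ℝ) + 2/3) ρ))

def S_CB : Prop := S_xi → ∀ (a b N : ℕ → ℕ) (ρ σ : ℝ), Seq a b N ρ σ → ∀ l l' : ℕ,
  Tendsto (fun i => (N i : ℝ)/2 * B1 (xi (b i) l') (gK (N i) (l+l'))) atTop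
    (𝓝 (br1 (2*(l':ℝ) + 2/3) (2*((l+l' : ℕ) : ℝ) + 2/3) σ))

/-- uniform bounds for the brackets -/
def S_BdA (a b N : ℕ → ℕ) : Prop := ∃ (k : ℕ) (C : ℝ), 0 < C ∧ ∀ᶠ i in atTop, ∀ l l' : ℕ,
  (l+l'+1)^k ≤ a i → (l+l'+1)^k ≤ b i →
  0 < (((dv (a i)).coeff l : ℚ) : ℝ) ∧
  |(N i : ℝ)/2 * B1 (ze (a i) l) (gK (N i) (l+l'))| ≤ C * ((l:ℝ)+l'+1)^k

def S_BdB (a b N : ℕ → ℕ) : Prop := ∃ (k : ℕ) (C : ℝ), 0 < C ∧ ∀ᶠ i in atTop, ∀ l l' : ℕ,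
  (l+l'+1)^k ≤ a i → (l+l'+1)^k ≤ b i →
  0 < (((sv (b i)).coeff l' : ℚ) : ℝ) ∧
  |(N i : ℝ)/2 * B1 (xi (b i) l') (gK (N i) (l+l'))| ≤ C * ((l:ℝ)+l'+1)^k

/-- TASK C, part 2: the bounds -/
def S_C2A : Prop := S_ze → ∀ (a b N : ℕ → ℕ) (ρ σ : ℝ), Seq a b N ρ σ → S_BdA a b N

def S_C2B : Prop := S_xi → ∀ (a b N : ℕ → ℕ) (ρ σ : ℝ), Seq a b N ρ σ → S_BdB a b N

/-! ## TASK D: the limits of the single terms -/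

/-- the term `(l, l')` of the limit series -/
noncomputable def TT (l l' : ℕ) (x y : ℝ) : ℝ :=
  (2*y)^((2:ℝ)/3) * (3 / (2*Bt)) * (rf (1/3) (l+l') * rf (2/3) (l+l') /
    (rf (1/3) l * (Nat.factorial l : ℝ) * (rf (4/3) l' * (Nat.factorial l' : ℝ)))) *
    (x^2)^l * (y^2)^l'

/-- TASK D, part 1 -/
def S_D1 : Prop := ∀ (j : ℕ) (x y : ℝ),
  (2*y)^((2:ℝ)/3) * (3 / Bt) * ap3 (x^2) (y^2) j / 2 = ∑ p ∈ antidiagonal j, TT p.1 p.2 x y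

/-- TASK D, part 2 -/
def S_D2 : Prop := ∀ (a b N : ℕ → ℕ) (ρ σ : ℝ), Seq a b N ρ σ → ∀ l l' : ℕ,
  Tendsto (fun i => (((dv (a i)).coeff l * (sv (b i)).coeff l' * mj (N i) (l+l') : ℚ) : ℝ) / 2)
    atTop (𝓝 (TT l l' ρ σ))

/-! ## TASK E: the limits -/

noncomputable def HA (x y : ℝ) : ℝ := ∑' j : ℕ, ∑ p ∈ antidiagonal j,
  TT p.1 p.2 x y * br1 (2*(p.1:ℝ)) (2*(j:ℝ) + 2/3) x

noncomputable def HB (x y : ℝ) : ℝ := ∑' j : ℕ, ∑ p ∈ antidiagonal j,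
  TT p.1 p.2 x y * br1 (2*(p.2:ℝ) + 2/3) (2*(j:ℝ) + 2/3) y

def S_LimA : Prop := ∀ (a b N : ℕ → ℕ) (ρ σ : ℝ), Seq a b N ρ σ →
  Tendsto (fun i => (N i : ℝ)/2 * (((FK (a i + 2) (b i) (N i + 2) : ℚ) : ℝ) -
    ((FK (a i) (b i) (N i) : ℚ) : ℝ))) atTop (𝓝 (HA ρ σ))

def S_LimB : Prop := ∀ (a b N : ℕ → ℕ) (ρ σ : ℝ), Seq a b N ρ σ →
  Tendsto (fun i => (N i : ℝ)/2 * (((FK (a i) (b i + 2) (N i + 2) : ℚ) : ℝ) -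
    ((FK (a i) (b i) (N i) : ℚ) : ℝ))) atTop (𝓝 (HB ρ σ))

/-- TASK EA -/
def S_EA : Prop := S_g → S_G1 → S_G2 → S_D2 →
  (∀ (a b N : ℕ → ℕ) (ρ σ : ℝ), Seq a b N ρ σ → S_BdA a b N) →
  (∀ (a b N : ℕ → ℕ) (ρ σ : ℝ), Seq a b N ρ σ → ∀ l l' : ℕ,
    Tendsto (fun i => (N i : ℝ)/2 * B1 (ze (a i) l) (gK (N i) (l+l'))) atTop
      (𝓝 (br1 (2*(l:ℝ)) (2*((l+l' : ℕ) : ℝ) + 2/3) ρ))) → S_LimA

/-- TASK EB -/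
def S_EB : Prop := S_g → S_G1 → S_G2 → S_D2 →
  (∀ (a b N : ℕ → ℕ) (ρ σ : ℝ), Seq a b N ρ σ → S_BdB a b N) →
  (∀ (a b N : ℕ → ℕ) (ρ σ : ℝ), Seq a b N ρ σ → ∀ l l' : ℕ,
    Tendsto (fun i => (N i : ℝ)/2 * B1 (xi (b i) l') (gK (N i) (l+l'))) atTop
      (𝓝 (br1 (2*(l':ℝ) + 2/3) (2*((l+l' : ℕ) : ℝ) + 2/3) σ))) → S_LimB

/-! ## TASK F: the series are the derivatives -/

/-- TASK FA -/
def S_FA : Prop := S3_F4 → S_D1 → ∀ α γ β : ℝ, 0 < α → 0 < γ → 0 < β →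
  HasDerivAt (fun t => Gk (t/(t+γ+β)) (β/(t+γ+β)))
    (HA (α/(α+γ+β)) (β/(α+γ+β)) / (α+γ+β)) α

/-- TASK FB -/
def S_FB : Prop := S3_F4 → S_D1 → ∀ α γ β : ℝ, 0 < α → 0 < γ → 0 < β →
  HasDerivAt (fun t => Gk (α/(α+γ+t)) (t/(α+γ+t)))
    (HB (α/(α+γ+β)) (β/(α+γ+β)) / (α+γ+β)) β

/-! ## TASK K: closed forms -/

/-- minus the density at the left exit (the arms are exchanged) -/
noncomputable def kA (α γ β : ℝ) : ℝ := -(2 / BB * β^((2:ℝ)/3) * (α + γ + β)^(-(1:ℝ)/3) *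
  (γ * (γ + 2*β))^((1:ℝ)/6) * ((γ + 2*α) * (γ + 2*α + 2*β))^(-(5:ℝ)/6))

noncomputable def kB (α γ β : ℝ) : ℝ := 2 / BB * β^(-(1:ℝ)/3) * (α + γ + β)^(-(1:ℝ)/3) *
  (γ * (γ + 2*α))^((1:ℝ)/6) * ((γ + 2*β) * (γ + 2*α + 2*β))^(-(5:ℝ)/6) * (α + γ + 2*β)

/-- TASK KA -/
def S_KA : Prop := ∀ α γ β : ℝ, 0 < α → 0 < γ → 0 < β →
  HasDerivAt (fun t => Gk (t/(t+γ+β)) (β/(t+γ+β))) (kA α γ β) α

/-- TASK KB -/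
def S_KB : Prop := ∀ α γ β : ℝ, 0 < α → 0 < γ → 0 < β →
  HasDerivAt (fun t => Gk (α/(α+γ+t)) (t/(α+γ+t))) (kB α γ β) β

end Pool.Agent.H966.N9
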