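import Pool.Agent.H966.N9.Stm

/-!
Total variation for the exits of the exploration path (helper966): statements of the tasks (nothing is
proved here).
-/

set_option autoImplicit false

namespace Pool.Agent.H966.N9

open Pool.Agent.H966.N3 (Gk)
open Pool.Agent.H966.N1 (Gc)
open Filter Topology Set MeasureTheory

/-- Cardy's formula for the exit through the left line -/
noncomputable def Lft (α γ β : ℝ) : ℝ := 1 - Gk (β/(β+γ+α)) (α/(β+γ+α))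

/-- Cardy's formula for the exit through the right line -/
noncomputable def Rgt (α γ β : ℝ) : ℝ :=
  Gk (β/(β+γ+α)) (α/(β+γ+α)) - Gc (α/(α+γ+β)) (β/(α+γ+β))

/-- TASK L1 -/
def S_L1 : Prop := ∀ γ β : ℝ, 0 < γ → 0 < β → Tendsto (fun t => Rgt t γ β) (𝓝[>] 0) (𝓝 0)

/-- TASK L2 -/
def S_L2 : Prop := ∀ γ β : ℝ, 0 < γ → 0 < β → Tendsto (fun t => Lft t γ β) atTop (𝓝 0)

/-- TASK L3 -/
def S_L3 : Prop := ∀ α γ : ℝ, 0 < α → 0 < γ → Tendsto (fun t => Rgt α γ t) atTop (𝓝 0)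

/-- TASK T: Scheffe's lemma for windows `(δ(2k+o), δ(2k+o+2)]` to the right of `c` -/
def S_T : Prop := ∀ (f : ℝ → ℝ) (δ : ℕ → ℝ) (P : ℕ → ℕ → ℝ) (c M : ℝ) (o : ℕ),
  (∀ n, 0 < δ n) → Tendsto δ atTop (𝓝 0) → 0 ≤ c → (∀ x, c < x → 0 ≤ f x) →
  IntegrableOn f (Ioi c) → ∫ x in Ioi c, f x = M → (∀ n k, 0 ≤ P n k) →
  (∀ ε : ℝ, 0 < ε → ∀ᶠ n in atTop, ∀ s : Finset ℕ, (∀ k ∈ s, c ≤ δ n * (2*k+o)) →
    ∑ k ∈ s, P n k ≤ M + ε) →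
  (∀ (x : ℝ) (k : ℕ → ℕ), c < x → Tendsto (fun n => δ n * (2*k n+o)) atTop (𝓝 x) →
    Tendsto (fun n => P n (k n) / (2 * δ n)) atTop (𝓝 (f x))) →
  ∀ ε : ℝ, 0 < ε → ∀ᶠ n in atTop, ∀ s : Finset ℕ, (∀ k ∈ s, c ≤ δ n * (2*k+o)) →
    ∑ k ∈ s, |P n k - ∫ x in Ioc (δ n * (2*k+o)) (δ n * (2*k+o+2)), f x| < ε

end Pool.Agent.H966.N9
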