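import Pool.Agent.H966.N9.Stm2

/-!
Task T of the project N9 of helper966: Scheffe's lemma in dimension one (helper790, after the
two-dimensional version Pool/Agent/H966/N5/T.lean).
-/

set_option autoImplicit false

namespace Pool.Agent.H966.N9

open MeasureTheory Filter Topology Set

namespace T

/-- the index of the window -/
noncomputable def K (o : ℕ) (d x : ℝ) : ℕ := ⌈(x / d - o) / 2⌉₊ - 1

theorem idx {t : ℝ} (ht : 0 < t) :
    ((⌈t⌉₊ - 1 : ℕ) : ℝ) < t ∧ t ≤ ((⌈t⌉₊ - 1 : ℕ) : ℝ) + 1 := by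
  have h1 : 0 < ⌈t⌉₊ := Nat.ceil_pos.2 ht
  obtain ⟨m, hm⟩ : ∃ m, ⌈t⌉₊ = m + 1 := ⟨⌈t⌉₊ - 1, by omega⟩
  have h2 : m < ⌈t⌉₊ := by omega
  have h3 := Nat.lt_ceil.1 h2
  have h4 := Nat.le_ceil t
  rw [hm] at h4 ⊢
  rw [Nat.add_sub_cancel]
  push_cast at h4
  exact ⟨h3, h4⟩

theorem idx_eq {t : ℝ} {m : ℕ} (h1 : (m : ℝ) < t) (h2 : t ≤ m + 1) : ⌈t⌉₊ - 1 = m := by
  have h3 : ⌈t⌉₊ = m + 1 := by
    rw [Nat.ceil_eq_iff (Nat.succ_ne_zero m), Nat.succ_sub_one, Nat.cast_succ]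
    exact ⟨h1, h2⟩
  rw [h3, Nat.add_sub_cancel]

theorem K_spec {o : ℕ} {d x : ℝ} (hd : 0 < d) (hx : d * o < x) :
    d * (2 * (K o d x : ℝ) + o) < x ∧ x ≤ d * (2 * (K o d x : ℝ) + o + 2) := by
  have ht : 0 < (x / d - o) / 2 := by
    have h1 : (o : ℝ) < x / d := by
      rw [lt_div_iff₀ hd]
      linarith
    linarith
  obtain ⟨h1, h2⟩ := idx ht
  change (K o d x : ℝ) < _ at h1
  change _ ≤ (K o d x : ℝ) + 1 at h2
  have h3 : x = d * (x / d) := (mul_div_cancel₀ x hd.ne').symm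
  constructor
  · have h4 : 2 * (K o d x : ℝ) + o < x / d := by linarith
    calc d * (2 * (K o d x : ℝ) + o) < d * (x / d) := mul_lt_mul_of_pos_left h4 hd
      _ = x := h3.symm
  · have h4 : x / d ≤ 2 * (K o d x : ℝ) + o + 2 := by linarith
    calc x = d * (x / d) := h3
      _ ≤ _ := mul_le_mul_of_nonneg_left h4 hd.le

theorem K_eq {o : ℕ} {d x : ℝ} {k : ℕ} (hd : 0 < d) (h1 : d * (2 * (k : ℝ) + o) < x)
    (h2 : x ≤ d * (2 * (k : ℝ) + o + 2)) : K o d x = k := by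
  apply idx_eq
  · have h3 : 2 * (k : ℝ) + o < x / d := by
      rw [lt_div_iff₀ hd]
      linarith
    linarith
  · have h3 : x / d ≤ 2 * (k : ℝ) + o + 2 := by
      rw [div_le_iff₀ hd]
      linarith
    linarith

/-- the window, empty if it is not to the right of `c` -/
def cell (c : ℝ) (o : ℕ) (d : ℝ) (k : ℕ) : Set ℝ :=
  {x | c ≤ d * (2 * (k : ℝ) + o)} ∩ Ioc (d * (2 * (k : ℝ) + o)) (d * (2 * (k : ℝ) + o + 2))

theorem cell_good {c : ℝ} {o : ℕ} {d : ℝ} {k : ℕ} (h : c ≤ d * (2 * (k : ℝ) + o)) :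
    cell c o d k = Ioc (d * (2 * (k : ℝ) + o)) (d * (2 * (k : ℝ) + o + 2)) := by
  ext x
  exact ⟨fun hx => hx.2, fun hx => ⟨h, hx⟩⟩

theorem cell_bad {c : ℝ} {o : ℕ} {d : ℝ} {k : ℕ} (h : ¬ c ≤ d * (2 * (k : ℝ) + o)) :
    cell c o d k = ∅ := by
  ext x
  exact ⟨fun hx => (h hx.1).elim, fun hx => hx.elim⟩

theorem meas_cell (c : ℝ) (o : ℕ) (d : ℝ) (k : ℕ) : MeasurableSet (cell c o d k) := by
  by_cases h : c ≤ d * (2 * (k : ℝ) + o)
  · rw [cell_good h]
    exact measurableSet_Ioc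
  · rw [cell_bad h]
    exact MeasurableSet.empty

/-- the union of the windows -/
def A (c : ℝ) (o : ℕ) (d : ℝ) : Set ℝ := ⋃ k : ℕ, cell c o d k

theorem A_sub (c : ℝ) (o : ℕ) (d : ℝ) : A c o d ⊆ Ioi c := by
  intro x hx
  obtain ⟨k, hk⟩ := mem_iUnion.1 hx
  exact lt_of_le_of_lt hk.1 hk.2.1

theorem meas_A (c : ℝ) (o : ℕ) (d : ℝ) : MeasurableSet (A c o d) :=
  MeasurableSet.iUnion fun k => meas_cell c o d k

theorem disj_cell {c : ℝ} {o : ℕ} {d : ℝ} (hd : 0 < d) :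
    Pairwise (Function.onFun Disjoint fun k : ℕ => cell c o d k) := by
  intro p p' hne
  change Disjoint (cell c o d p) (cell c o d p')
  rw [Set.disjoint_left]
  intro q hq hq'
  exact hne ((K_eq hd hq.2.1 hq.2.2).symm.trans (K_eq hd hq'.2.1 hq'.2.2))

/-- the density of the probabilities of the windows -/
noncomputable def F (o : ℕ) (d : ℝ) (w : ℕ → ℝ) (x : ℝ) : ℝ := w (K o d x) / (2 * d)

theorem meas_F (o : ℕ) (d : ℝ) (w : ℕ → ℝ) : Measurable (F o d w) := by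
  have h1 : Measurable fun x : ℝ => K o d x := by
    have h2 : Measurable fun x : ℝ => ⌈(x / d - o) / 2⌉₊ :=
      Nat.measurable_ceil.comp (((measurable_id.div_const d).sub_const _).div_const 2)
    exact (measurable_of_countable fun m : ℕ => m - 1).comp h2
  exact (measurable_of_countable fun p : ℕ => w p / (2 * d)).comp h1

theorem F_nonneg {o : ℕ} {d : ℝ} (hd : 0 < d) {w : ℕ → ℝ} (hw : ∀ k, 0 ≤ w k) (x : ℝ) :
    0 ≤ F o d w x := div_nonneg (hw _) (by linarith)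

theorem int_F {c : ℝ} {o : ℕ} {d : ℝ} (hd : 0 < d) (w : ℕ → ℝ) {k : ℕ}
    (hk : c ≤ d * (2 * (k : ℝ) + o)) :
    IntegrableOn (F o d w) (cell c o d k) ∧ ∫ x in cell c o d k, F o d w x = w k := by
  have h1 : EqOn (F o d w) (fun _ => w k / (2 * d)) (cell c o d k) := by
    intro q hq
    change w (K o d q) / (2 * d) = _
    rw [K_eq hd hq.2.1 hq.2.2]
  have hvol : volume (cell c o d k) = ENNReal.ofReal (2 * d) := by
    rw [cell_good hk, Real.volume_Ioc]
    congr 1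
    ring
  have hfin : volume (cell c o d k) ≠ ⊤ := by
    rw [hvol]
    exact ENNReal.ofReal_ne_top
  constructor
  · exact (integrableOn_congr_fun h1 (meas_cell c o d k)).2 (integrableOn_const hfin)
  · rw [setIntegral_congr_fun (meas_cell c o d k) h1, setIntegral_const, measureReal_def, hvol,
      ENNReal.toReal_ofReal (by linarith), smul_eq_mul]
    field_simp

/-- the positive part of the difference -/
noncomputable def D (o : ℕ) (f : ℝ → ℝ) (d : ℝ) (w : ℕ → ℝ) (x : ℝ) : ℝ :=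
  max (f x - F o d w x) 0

theorem D_bound {c : ℝ} {o : ℕ} {f : ℝ → ℝ} (hf : ∀ x, c < x → 0 ≤ f x) {d : ℝ} (hd : 0 < d)
    {w : ℕ → ℝ} (hw : ∀ k, 0 ≤ w k) : ∀ x ∈ Ioi c, ‖D o f d w x‖ ≤ f x := by
  intro q hq
  have h1 : 0 ≤ D o f d w q := le_max_right _ _
  rw [Real.norm_eq_abs, abs_of_nonneg h1]
  exact max_le (by linarith [F_nonneg (o := o) hd hw q]) (hf q hq)

theorem int_D {c : ℝ} {o : ℕ} {f : ℝ → ℝ} (hf : ∀ x, c < x → 0 ≤ f x)
    (hfi : IntegrableOn f (Ioi c)) {d : ℝ} (hd : 0 < d)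
    {w : ℕ → ℝ} (hw : ∀ k, 0 ≤ w k) : IntegrableOn (D o f d w) (Ioi c) := by
  have h1 : AEStronglyMeasurable (D o f d w) (volume.restrict (Ioi c)) :=
    (hfi.1.sub (meas_F o d w).aestronglyMeasurable).sup aestronglyMeasurable_const
  refine Integrable.mono' hfi h1 ?_
  rw [ae_restrict_iff' measurableSet_Ioi]
  exact Filter.Eventually.of_forall fun q hq => D_bound hf hd hw q hq

/-- the estimate for fixed mesh -/
theorem main_est {c : ℝ} {o : ℕ} {f : ℝ → ℝ} (hf : ∀ x, c < x → 0 ≤ f x)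
    (hfi : IntegrableOn f (Ioi c)) {d : ℝ} (hd : 0 < d) {w : ℕ → ℝ} (hw : ∀ k, 0 ≤ w k) {B : ℝ}
    (hw1 : ∀ s : Finset ℕ, (∀ k ∈ s, c ≤ d * (2 * (k : ℝ) + o)) → ∑ k ∈ s, w k ≤ B)
    {η : ℝ} (hη : 0 < η) (s : Finset ℕ) (hs : ∀ k ∈ s, c ≤ d * (2 * (k : ℝ) + o)) :
    ∑ k ∈ s, |w k - ∫ x in cell c o d k, f x| ≤
      2 * (∫ x in Ioi c, D o f d w x) + B - (∫ x in A c o d, f x) + η := by
  classical
  have hfA : IntegrableOn f (⋃ k : ℕ, cell c o d k) := hfi.mono_set (A_sub c o d)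
  have hDA : IntegrableOn (D o f d w) (⋃ k : ℕ, cell c o d k) :=
    (int_D hf hfi hd hw).mono_set (A_sub c o d)
  have hcell : ∀ k : ℕ, cell c o d k ⊆ ⋃ k : ℕ, cell c o d k := fun k =>
    subset_iUnion (fun k : ℕ => cell c o d k) k
  have h1 : HasSum (fun k : ℕ => ∫ x in cell c o d k, f x) (∫ x in A c o d, f x) :=
    hasSum_integral_iUnion (fun k : ℕ => meas_cell c o d k) (disj_cell hd) hfA
  have h2 : HasSum (fun k : ℕ => ∫ x in cell c o d k, D o f d w x)
      (∫ x in A c o d, D o f d w x) :=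
    hasSum_integral_iUnion (fun k : ℕ => meas_cell c o d k) (disj_cell hd) hDA
  -- enlarge `s`
  obtain ⟨s', hss', hgood, hs'⟩ : ∃ s' : Finset ℕ, s ⊆ s' ∧
      (∀ k ∈ s', c ≤ d * (2 * (k : ℝ) + o)) ∧
      (∫ x in A c o d, f x) - η < ∑ k ∈ s', ∫ x in cell c o d k, f x := by
    have h3 : ∀ᶠ t : Finset ℕ in atTop,
        (∫ x in A c o d, f x) - η < ∑ k ∈ t, ∫ x in cell c o d k, f x :=
      h1.eventually (lt_mem_nhds (by linarith))
    obtain ⟨t, ht⟩ := Filter.eventually_atTop.1 h3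
    refine ⟨(s ∪ t).filter (fun k => c ≤ d * (2 * (k : ℝ) + o)), ?_, ?_, ?_⟩
    · intro k hk
      exact Finset.mem_filter.2 ⟨Finset.mem_union_left _ hk, hs k hk⟩
    · intro k hk
      exact (Finset.mem_filter.1 hk).2
    · rw [Finset.sum_filter_of_ne]
      · exact ht _ Finset.subset_union_right
      · intro k _ hne
        by_contra hbad
        apply hne
        rw [cell_bad hbad]
        simp
  have h3 : ∀ k : ℕ, c ≤ d * (2 * (k : ℝ) + o) → |w k - ∫ x in cell c o d k, f x| ≤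
      2 * (∫ x in cell c o d k, D o f d w x) + w k - ∫ x in cell c o d k, f x := by
    intro k hk
    have hfp : IntegrableOn f (cell c o d k) := hfA.mono_set (hcell k)
    have hDp : IntegrableOn (D o f d w) (cell c o d k) := hDA.mono_set (hcell k)
    have h4 : (∫ x in cell c o d k, f x) - w k ≤ ∫ x in cell c o d k, D o f d w x := by
      have h6 : (∫ x in cell c o d k, f x) - ∫ x in cell c o d k, F o d w x =
          ∫ x in cell c o d k, (f x - F o d w x) := (integral_sub hfp (int_F hd w hk).1).symm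
      rw [(int_F hd w hk).2] at h6
      rw [h6]
      exact setIntegral_mono (hfp.sub (int_F hd w hk).1) hDp fun q => le_max_left _ _
    have h5 : 0 ≤ ∫ x in cell c o d k, D o f d w x :=
      setIntegral_nonneg (meas_cell c o d k) fun q _ => le_max_right _ _
    rw [abs_le]
    constructor <;> linarith
  have h4 : ∑ k ∈ s', ∫ x in cell c o d k, D o f d w x ≤ ∫ x in Ioi c, D o f d w x := by
    refine (sum_le_hasSum s' (fun p _ => ?_) h2).trans ?_
    · exact setIntegral_nonneg (meas_cell c o d p) fun q _ => le_max_right _ _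
    · refine setIntegral_mono_set (int_D hf hfi hd hw) ?_ (A_sub c o d).eventuallyLE
      exact Filter.Eventually.of_forall fun q => le_max_right _ _
  calc ∑ k ∈ s, |w k - ∫ x in cell c o d k, f x|
      ≤ ∑ k ∈ s', |w k - ∫ x in cell c o d k, f x| :=
        Finset.sum_le_sum_of_subset_of_nonneg hss' fun _ _ _ => abs_nonneg _
    _ ≤ ∑ k ∈ s', (2 * (∫ x in cell c o d k, D o f d w x) + w k -
          ∫ x in cell c o d k, f x) := Finset.sum_le_sum fun k hk => h3 k (hgood k hk)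
    _ = 2 * (∑ k ∈ s', ∫ x in cell c o d k, D o f d w x) + (∑ k ∈ s', w k) -
          ∑ k ∈ s', ∫ x in cell c o d k, f x := by
        rw [Finset.sum_sub_distrib, Finset.sum_add_distrib, ← Finset.mul_sum]
    _ ≤ _ := by
        have h5 := hw1 s' hgood
        linarith

theorem ev_o {δ : ℕ → ℝ} (hδ0 : Tendsto δ atTop (𝓝 0)) (o : ℕ) {x : ℝ} (hx : 0 < x) :
    ∀ᶠ n in atTop, δ n * o < x := by
  have h := hδ0.mul_const (o : ℝ)
  rw [zero_mul] at h
  exact h.eventually (gt_mem_nhds hx)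

theorem lim_K {δ : ℕ → ℝ} (hδ : ∀ n, 0 < δ n) (hδ0 : Tendsto δ atTop (𝓝 0)) (o : ℕ) {x : ℝ}
    (hx : 0 < x) : Tendsto (fun n => δ n * (2 * (K o (δ n) x : ℝ) + o)) atTop (𝓝 x) := by
  have h1 : Tendsto (fun n => x - 2 * δ n) atTop (𝓝 x) := by
    have h2 := (hδ0.const_mul 2).const_sub x
    rwa [mul_zero, sub_zero] at h2
  have h3 := ev_o hδ0 o hx
  refine tendsto_of_tendsto_of_tendsto_of_le_of_le' h1 tendsto_const_nhds ?_ ?_
  · filter_upwards [h3] with n hn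
    have := (K_spec (hδ n) hn).2
    linarith
  · filter_upwards [h3] with n hn
    exact (K_spec (hδ n) hn).1.le

/-- the first integral tends to zero -/
theorem lim_D {c : ℝ} {o : ℕ} {f : ℝ → ℝ} {δ : ℕ → ℝ} {w : ℕ → ℕ → ℝ} (hδ : ∀ n, 0 < δ n)
    (hδ0 : Tendsto δ atTop (𝓝 0)) (hc : 0 ≤ c) (hf : ∀ x, c < x → 0 ≤ f x)
    (hfi : IntegrableOn f (Ioi c)) (hw : ∀ n k, 0 ≤ w n k)
    (hlim : ∀ (x : ℝ) (k : ℕ → ℕ), c < x →
      Tendsto (fun n => δ n * (2 * (k n : ℝ) + o)) atTop (𝓝 x) →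
      Tendsto (fun n => w n (k n) / (2 * δ n)) atTop (𝓝 (f x))) :
    Tendsto (fun n => ∫ x in Ioi c, D o f (δ n) (w n) x) atTop (𝓝 0) := by
  have h0 : (0 : ℝ) = ∫ x in Ioi c, (fun _ : ℝ => (0 : ℝ)) x := by
    simp
  rw [h0]
  refine tendsto_integral_of_dominated_convergence f ?_ hfi ?_ ?_
  · intro n
    exact (int_D hf hfi (hδ n) (hw n)).1
  · intro n
    rw [ae_restrict_iff' measurableSet_Ioi]
    exact Filter.Eventually.of_forall fun q hq => D_bound hf (hδ n) (hw n) q hq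
  · rw [ae_restrict_iff' measurableSet_Ioi]
    refine Filter.Eventually.of_forall fun q hq => ?_
    have hq' : c < q := hq
    have h6 := hlim q (fun n => K o (δ n) q) hq' (lim_K hδ hδ0 o (lt_of_le_of_lt hc hq'))
    have h7 : Tendsto (fun n => F o (δ n) (w n) q) atTop (𝓝 (f q)) := h6
    have h8 : Tendsto (fun n => max (f q - F o (δ n) (w n) q) 0) atTop
        (𝓝 (max (f q - f q) 0)) := (h7.const_sub (f q)).max tendsto_const_nhds
    rw [sub_self, max_self] at h8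
    exact h8

/-- the second integral tends to the total integral -/
theorem lim_A {c : ℝ} {o : ℕ} {f : ℝ → ℝ} {δ : ℕ → ℝ} (hδ : ∀ n, 0 < δ n)
    (hδ0 : Tendsto δ atTop (𝓝 0)) (hc : 0 ≤ c) (hf : ∀ x, c < x → 0 ≤ f x)
    (hfi : IntegrableOn f (Ioi c)) :
    Tendsto (fun n => ∫ x in A c o (δ n), f x) atTop (𝓝 (∫ x in Ioi c, f x)) := by
  have h1 : ∀ n, ∫ x in A c o (δ n), f x = ∫ x in Ioi c, (A c o (δ n)).indicator f x := by
    intro n
    rw [setIntegral_indicator (meas_A _ _ _), inter_eq_right.2 (A_sub _ _ _)]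
  simp only [h1]
  refine tendsto_integral_of_dominated_convergence f ?_ hfi ?_ ?_
  · intro n
    exact hfi.1.indicator (meas_A _ _ _)
  · intro n
    rw [ae_restrict_iff' measurableSet_Ioi]
    refine Filter.Eventually.of_forall fun q hq => ?_
    by_cases h2 : q ∈ A c o (δ n)
    · rw [indicator_of_mem h2, Real.norm_eq_abs, abs_of_nonneg (hf q hq)]
    · rw [indicator_of_notMem h2, norm_zero]
      exact hf q hq
  · rw [ae_restrict_iff' measurableSet_Ioi]
    refine Filter.Eventually.of_forall fun q hq => ?_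
    have hq' : c < q := hq
    have hq0 : 0 < q := lt_of_le_of_lt hc hq'
    have h3 := ev_o hδ0 o hq0
    have h4 : ∀ᶠ n in atTop, c < δ n * (2 * (K o (δ n) q : ℝ) + o) :=
      (lim_K hδ hδ0 o hq0).eventually (lt_mem_nhds hq')
    refine tendsto_const_nhds.congr' ?_
    filter_upwards [h3, h4] with n hn hn4
    rw [indicator_of_mem]
    exact mem_iUnion.2 ⟨K o (δ n) q, hn4.le, K_spec (hδ n) hn⟩

end T

theorem t_T : S_T := by
  intro f δ w c M o hδ hδ0 hc hf hfi hM hw hw1 hlim ε hε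
  have h1 := T.lim_D hδ hδ0 hc hf hfi hw hlim
  have h2 := T.lim_A (o := o) hδ hδ0 hc hf hfi
  rw [hM] at h2
  filter_upwards [h1.eventually (gt_mem_nhds (show (0 : ℝ) < ε / 8 by positivity)),
    h2.eventually (lt_mem_nhds (show M - ε / 4 < M by linarith)),
    hw1 (ε / 4) (by positivity)] with n hn1 hn2 hn3
  intro s hs
  have h3 := T.main_est hf hfi (hδ n) (hw n) hn3 (show (0 : ℝ) < ε / 8 by positivity) s hs
  have h4 : ∑ k ∈ s, |w n k - ∫ x in Ioc (δ n * (2*k+o)) (δ n * (2*k+o+2)), f x| =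
      ∑ k ∈ s, |w n k - ∫ x in T.cell c o (δ n) k, f x| :=
    Finset.sum_congr rfl fun k hk => by rw [T.cell_good (hs k hk)]
  rw [h4]
  linarith

end Pool.Agent.H966.N9
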