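import Pool.Agent.H966.N9.Stm2

set_option autoImplicit false

/-!
Total variation for the exits of the exploration path: monotone functions with a nonnegative
derivative (helper966).
-/

namespace Pool.Agent.H966.N9

open Filter Topology Set MeasureTheory

/-- the limit at infinity of a bounded function with a nonnegative derivative, and the integral of the
derivative -/
theorem mass_of {F f : ℝ → ℝ} {c : ℝ} (hc : 0 ≤ c)
    (hd : ∀ x, 0 < x → HasDerivAt F (f x) x) (hf : ∀ x, 0 < x → 0 ≤ f x) (hb : ∀ x, 0 < x → F x ≤ 1)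
    (h0 : c = 0 → Tendsto F (𝓝[>] 0) (𝓝 0)) :
    ∃ l : ℝ, (∀ x, 0 < x → F x ≤ l) ∧ IntegrableOn f (Ioi c) ∧
      ∫ x in Ioi c, f x = l - (if c = 0 then 0 else F c) := by
  have hmono : MonotoneOn F (Ioi 0) := by
    apply monotoneOn_of_deriv_nonneg (convex_Ioi 0)
    · intro x hx
      exact (hd x hx).continuousAt.continuousWithinAt
    · intro x hx
      rw [interior_Ioi] at hx
      exact (hd x hx).differentiableAt.differentiableWithinAt
    · intro x hx
      rw [interior_Ioi] at hx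
      rw [(hd x hx).deriv]
      exact hf x hx
  have hm1 : Monotone fun t : ℝ => F (max t 1) := by
    intro x y hxy
    exact hmono (mem_Ioi.2 (lt_max_of_lt_right one_pos)) (mem_Ioi.2 (lt_max_of_lt_right one_pos))
      (max_le_max hxy le_rfl)
  have hbd : BddAbove (range fun t : ℝ => F (max t 1)) := by
    refine ⟨1, ?_⟩
    rintro _ ⟨t, rfl⟩
    exact hb _ (lt_max_of_lt_right one_pos)
  have hl1 := tendsto_atTop_ciSup hm1 hbd
  set l : ℝ := ⨆ t : ℝ, F (max t 1) with hl
  have hle : ∀ x, 0 < x → F x ≤ l := by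
    intro x hx
    refine le_trans ?_ (le_ciSup hbd x)
    exact hmono hx (mem_Ioi.2 (lt_max_of_lt_right one_pos)) (le_max_left _ _)
  let g : ℝ → ℝ := fun t => if t ≤ 0 then 0 else F t
  have hg : ∀ x, 0 < x → g =ᶠ[𝓝 x] F := by
    intro x hx
    filter_upwards [lt_mem_nhds hx] with t ht
    exact if_neg (not_le.2 ht)
  have hgd : ∀ x ∈ Ioi c, HasDerivAt g (f x) x := fun x hx => by
    have hx0 : 0 < x := lt_of_le_of_lt hc hx
    exact (hd x hx0).congr_of_eventuallyEq (hg x hx0)
  have hgl : Tendsto g atTop (𝓝 l) := by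
    refine hl1.congr' ?_
    filter_upwards [eventually_ge_atTop 1] with t ht
    show F (max t 1) = g t
    rw [max_eq_left ht]
    exact (if_neg (not_le.2 (lt_of_lt_of_le one_pos ht))).symm
  have hgc : ContinuousWithinAt g (Ici c) c := by
    rcases eq_or_lt_of_le hc with h | h
    · rw [← continuousWithinAt_Ioi_iff_Ici]
      rw [← h]
      show Tendsto g (𝓝[>] 0) (𝓝 (g 0))
      have e : g 0 = 0 := if_pos le_rfl
      rw [e]
      refine (h0 h.symm).congr' ?_
      filter_upwards [self_mem_nhdsWithin] with t ht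
      exact (if_neg (not_le.2 ht)).symm
    · exact ((hd c h).continuousAt.congr (hg c h).symm).continuousWithinAt
  refine ⟨l, hle, integrableOn_Ioi_deriv_of_nonneg hgc hgd
    (fun x hx => hf x (lt_of_le_of_lt hc hx)) hgl, ?_⟩
  rw [integral_Ioi_of_hasDerivAt_of_nonneg hgc hgd (fun x hx => hf x (lt_of_le_of_lt hc hx)) hgl]
  congr 1
  by_cases h : c = 0
  · rw [if_pos h]
    exact if_pos h.le
  · rw [if_neg h]
    exact if_neg (not_le.2 (lt_of_le_of_ne hc (Ne.symm h)))

/-- natural numbers with a given limit -/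
theorem exists_width {δ : ℕ → ℝ} (hδ : ∀ n, 0 < δ n) (hδ0 : Tendsto δ atTop (𝓝 0)) {x : ℝ}
    (hx : 0 < x) : ∃ a : ℕ → ℕ, (∀ n, 1 ≤ a n) ∧ (∀ n, x ≤ δ n * a n) ∧
      (∀ n, ∀ k : ℕ, x ≤ δ n * k → a n ≤ k) ∧ Tendsto (fun n => δ n * a n) atTop (𝓝 x) := by
  refine ⟨fun n => ⌈x / δ n⌉₊, fun n => ?_, fun n => ?_, fun n k hk => ?_, ?_⟩
  · exact Nat.one_le_ceil_iff.2 (div_pos hx (hδ n))
  · have h1 := Nat.le_ceil (x / δ n)
    rw [div_le_iff₀ (hδ n)] at h1
    linarith
  · refine Nat.ceil_le.2 ?_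
    rw [div_le_iff₀ (hδ n)]
    linarith
  · have h1 : Tendsto (fun n => x + δ n) atTop (𝓝 (x + 0)) := tendsto_const_nhds.add hδ0
    rw [add_zero] at h1
    refine tendsto_of_tendsto_of_tendsto_of_le_of_le tendsto_const_nhds h1 (fun n => ?_)
      (fun n => ?_)
    · have h1 := Nat.le_ceil (x / δ n)
      rw [div_le_iff₀ (hδ n)] at h1
      show x ≤ δ n * (⌈x / δ n⌉₊ : ℝ)
      linarith
    · have h1 := (Nat.ceil_lt_add_one (div_pos hx (hδ n)).le).le
      have h2 := mul_le_mul_of_nonneg_left h1 (hδ n).le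
      show δ n * (⌈x / δ n⌉₊ : ℝ) ≤ x + δ n
      refine h2.trans_eq ?_
      have := (hδ n).ne'
      field_simp

end Pool.Agent.H966.N9
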